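import Pool.Agent.Lib.DN.PI.SpecC
import Pool.Agent.Lib.DS.PI.JDef
import Pool.Agent.Lib.DR.IfaceG
import Pool.Agent.Lib.DR.IfaceH

/-!
# THEOREM DR, Part I (helper55), chapter C: from Thaine's argument to the hypothesis of the descent

Every `S_<Name>` is proved in its own module `Pool/Agent/Lib/DR/PI/<Name>.lean`, namespace `Pool.Agent.DR.PI`,
theorem `p<Name> : S_<Name>`; the statements named as hypotheses only have to be introduced. All modules are EDITS of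
the modules `Pool/Agent/Lib/DN/PI/*.lean` of Theorem DN (same names); the definitions `Gd`, `Nm1`, `NiceI`, `LyI`, `Kn`, `rsys`,
`bb`, `AA`, `aG`, `S_RpT`, `S_ExP` are those of `DN/PI/SpecC.lean`; `S_O1`, .., `S_O9` those of `DN/Iface.lean`, `S_E1`, `S_E6`, `S_E7`,
`S_E8` those of `DR/Iface.lean`, `DS.S_E9`, `DS.S_G3`, `DS.S_GM` those of `DS`.
CHANGES AGAINST DN: (1) `[Rmf k t]`: `2` is ramified. The norms of the `v = 1` modulo `2 f` are only the squares modulo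
`2 ^ N` (`S_Ar2`); so `S_LyI` is only for `H ⊇ H2 f`: there an ideal of norm `± 3` modulo `8` is found in `H2 f`, from an
automorphism which moves `√2`. (2) In `IsDS` the property `ex` is only for the norms `± 1`: `S_DS` is simpler. (3) `S_G3`, `S_H` are for
`3 ≤ N`: `S_BInv`, `S_BNrm`, `S_AP`, `S_aP`, `S_AThm` are for `1 ≤ n` (`N = n + 2`). (4) `S_HypC` is for one character, with the output
`GO f P χ` of Part G as hypothesis; the prime `P'` of the decomposition group need not be `P`.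
-/

set_option autoImplicit false

open scoped Pointwise nonZeroDivisors

noncomputable section

namespace Pool.Agent.DR.PI

open Pool.Agent.MuZ Pool.Agent.DN NumberField IsDedekindDomain
open Pool.Agent.DI (io ofC io_inj exists_io io_ofC ofC_io VP MP UP TP ex sqr sqr_sq kap)
open Pool.Agent.DI.PI (Reps HypI Meas tr)
open Pool.Agent.DN.PI (Gd Nm1 NiceI LyI Kn rsys bb AA aG S_RpT S_ExP)

/-- (100 lines) **The ray class group.** -/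
def S_Cg : Prop :=
  S_O1 → S_O6 → S_O7 → ∀ (k t : ℕ) [Rmf k t] (N : ℕ), 0 < N →
    ∃ (C : Type) (_ : CommGroup C) (_ : Finite C) (c : Ideal (OO k t) → C),
      (∀ a b : Ideal (OO k t), Gd N a → Gd N b → c (a * b) = c a * c b) ∧
      (∀ a b : Ideal (OO k t), Gd N a → Gd N b → (c a = c b ↔ Ray N a b)) ∧
      ∀ x : C, ∃ a : Ideal (OO k t), Gd N a ∧ c a = x

/-- (100 lines) **Elementary existence.** PROOF of (2): the odd squares modulo `2 ^ N` are the classes which are `1` modulo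
`8`; `v` is an integer `x`, `x = 1` modulo `f`, `x ^ 2 = c` modulo `2 ^ N`. -/
def S_Ar2 : Prop :=
  ∀ (k t : ℕ) [Rmf k t],
    (∀ (f N : ℕ) (a b : OO k t), Odd f →
      ∃ v : OO k t, (f : OO k t) ∣ v - a ∧ ((2 ^ N : ℕ) : OO k t) ∣ v - b) ∧
    ∀ (f N : ℕ) (c : ℤ), Odd f → (8 : ℤ) ∣ c - 1 →
      ∃ v : OO k t, ((2 * f : ℕ) : OO k t) ∣ v - 1 ∧ (2 : ℤ) ^ N ∣ Nm v - c

/-- (150 lines) **Exponents.** PROOF as in DK; in (2) `Ray (2 f) B ⊤` gives `v` with `B = (v)` and `2 f ∣ v - 1` at once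
(`S_O4` is not used). -/
def S_Ar3 : Prop :=
  S_Cg → S_O1 → S_O2 → S_O6 → S_O7 → ∀ (k t : ℕ) [Rmf k t],
    (∀ f : ℕ, Odd f →
      (∃ m : ℕ, Odd m ∧ ∀ a : Ideal (OO k t), Gd (2 * f) a → H2 f (a ^ m)) ∧
      (∀ N : ℕ, ∃ e : ℕ, ∀ a : Ideal (OO k t), Gd (f * 2 ^ N) a → H2 f a →
        Ray (f * 2 ^ N) (a ^ 2 ^ e) ⊤) ∧
      NiceI (2 * f) (H2 (n := k) (t := t) f)) ∧
    ∀ (N : ℕ) (H : Ideal (OO k t) → Prop), 0 < N → NiceI N H → ∀ a, H a → ∃ a', H a' ∧ Ray N (a * a') ⊤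

/-- (60 lines) **The group of a layer.** -/
def S_NiL : Prop :=
  S_O1 → S_O2 → S_O6 → S_O7 → S_O9 → ∀ (k t : ℕ) [Rmf k t] (f : ℕ) (H : Ideal (OO k t) → Prop), 0 < f →
    NiceI (2 * f) H → ∀ n : ℕ, NiceI (f * 2 ^ (n + 2)) (fun a => H a ∧ Nm1 (n + 2) a)

/-- (80 lines) **Elementary facts about `Psi`.** -/
def S_Ps : Prop :=
  S_O7 → S_E1 → ∀ (k t : ℕ) [Rmf k t] (N : ℕ), 0 < N → 15 ∣ N →
    Psi 1 N (⊤ : Ideal (OO k t)) ∧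
    (∀ τ ∈ GK k t, ∀ a : Ideal (OO k t), Psi τ N a → ∃ a', Psi τ⁻¹ N a' ∧ Ray N (a * a') ⊤) ∧
    (∀ (τ : Gal(Om/ℚ)) (a : Ideal (OO k t)) (n : ℕ), Psi τ N a → Psi (τ ^ n) N (a ^ n)) ∧
    (∀ σ ∈ GK k t, ∀ τ ∈ GK k t, Psi (σ * τ * σ⁻¹ * τ⁻¹) N (⊤ : Ideal (OO k t))) ∧
    ∀ τ ∈ GK k t, ∀ τ' ∈ GK k t, ∀ a a' : Ideal (OO k t), Psi τ N a → Psi τ' N a' → Ray N a a' →
      Psi (τ⁻¹ * τ') N (⊤ : Ideal (OO k t))

/-- (80 lines) **Galois theory for groups of ray classes.** -/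
def S_GalI : Prop :=
  S_O7 → S_E1 → S_E8 → S_Ps → ∀ (k t : ℕ) [Rmf k t] (N : ℕ) (H : Ideal (OO k t) → Prop), 0 < N →
    15 ∣ N → NiceI N H →
    FiniteDimensional ℚ (FixI N H) ∧ KQ k t ≤ FixI N H ∧ (FixI N H).fixingSubgroup ≤ GK k t ∧
    (∀ τ ∈ GK k t, ∀ a : Ideal (OO k t), Psi τ N a → (τ ∈ (FixI N H).fixingSubgroup ↔ H a)) ∧
    (∀ x : Om, (∀ τ ∈ GK k t, (∃ a : Ideal (OO k t), Psi τ N a ∧ H a) → τ x = x) → x ∈ FixI N H) ∧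
    (∀ σ ∈ GK k t, ∀ x ∈ FixI N H, σ x ∈ FixI N H) ∧
    (∀ σ ∈ GK k t, ∀ τ ∈ GK k t, σ * τ * σ⁻¹ * τ⁻¹ ∈ (FixI N H).fixingSubgroup) ∧
    ∀ σ ∈ GK k t, ∀ τ ∈ (FixI N H).fixingSubgroup, σ * τ * σ⁻¹ ∈ (FixI N H).fixingSubgroup

/-- (120 lines) **The norm of `a` and `Qcyc 2`.** -/
def S_NoC : Prop :=
  S_TFix → S_O6 → S_O9 → S_E1 → S_E6 → ∀ (k t : ℕ) [Rmf k t], ∀ τ ∈ GK k t,
    τ ∈ (Qcyc 2).fixingSubgroup →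
    ∀ (M N : ℕ) (a : Ideal (OO k t)), 0 < M → 15 ∣ M → Psi τ (M * 2 ^ N) a → Nm1 N a

/-- (100 lines) **An ideal of norm `± 3` modulo `8`.** PROOF. `√2` is not in `K`; so there is `σ ∈ GK` with `σ √2 ≠ √2`. Let
`Psi σ (f 2 ^ N) a`, `ζ` a primitive eighth root of unity: `σ ζ = ζ ^ NI a` and `√2 = ζ + ζ ^ 7` up to sign, so `NI a` is not `± 1`
modulo `8`. `a ^ m ∈ H2 f` for an odd `m`. -/
def S_I3 : Prop :=
  S_Cg → S_Ar3 → S_O1 → S_O2 → S_O6 → S_O7 → S_O9 → S_E1 → S_E6 → ∀ (k t : ℕ) [Rmf k t] (f N : ℕ), Odd f → 15 ∣ f →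
    1 ≤ N → ∃ a : Ideal (OO k t), H2 f a ∧ Gd (f * 2 ^ N) a ∧
      ((8 : ℤ) ∣ (NI a : ℤ) - 3 ∨ (8 : ℤ) ∣ (NI a : ℤ) + 3)

/-- (200 lines) **The layers.** `φ`: the norm with values in `(ZMod (2 ^ N))ˣ ⧸ ± 1` is surjective (`S_Ar2` and `S_I3`). -/
def S_LyI : Prop :=
  S_NoC → S_TFix → S_GalI → S_NiL → S_Ps → S_Ar2 → S_I3 → S_Cg → S_Ar3 → S_O1 → S_O2 → S_O6 → S_O7 → S_O9 → S_E1 → S_E6 →
  S_E7 → S_E8 → S_Lay → ∀ (k t : ℕ) [Rmf k t] (f : ℕ) (H : Ideal (OO k t) → Prop), Odd f → 15 ∣ f →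
    NiceI (2 * f) H → (∀ a, H2 f a → H a) → ∀ n : ℕ, Layer 2 (FixI (2 * f) H) n (LyI f n H)

/-- (50 lines) **The field `K` as `FixI`.** `NiceI (2 * 15) (Gd (2 * 15))`: `cop` trivial; `ray`: `S_O7` (6); `mul`: `S_O6` (1).
`Psi τ (2 * 15) a` gives `Gd (2 * 15) a` (`Psi.ne`, `Psi.cop`, `S_O6` (2)). -/
def S_KF1 : Prop :=
  S_O1 → S_O6 → S_O7 → S_E1 → S_E8 → S_Ps → S_GalI → ∀ (k t : ℕ) [Rmf k t],
    NiceI (2 * 15) (Gd (k := k) (t := t) (2 * 15)) ∧ FixI (2 * 15) (Gd (k := k) (t := t) (2 * 15)) = KQ k t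

/-- (150 lines) **The lift of a character.** -/
def S_Chi : Prop :=
  DI.PI.S_Tei → S_Ps → S_GalI → S_Ar3 → S_Cg → S_O1 → S_O2 → S_O6 → S_O7 → S_E1 → S_E7 → S_E8 →
  ∀ (k t : ℕ) [Rmf k t] (f : ℕ), Odd f → 15 ∣ f → ∀ P : Ideal ZZ, P.IsPrime → (2 : ZZ) ∈ P →
  ∀ χb : Gal(Om/ℚ) → ZZ ⧸ P, (∀ σ ∈ GK k t, ∀ τ ∈ GK k t, χb (σ * τ) = χb σ * χb τ) →
    (∀ σ ∈ (Lf k t f).fixingSubgroup, χb σ = 1) →
    ∃ χ : Ideal (OO k t) → ZZ, IsChi (2 * f) (fun a => (χ a : Om)) ∧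
      (∀ σ ∈ GK k t, ∀ a : Ideal (OO k t), Psi σ⁻¹ (2 * f) a → Ideal.Quotient.mk P (χ a) = χb σ) ∧
      ∃ m : ℕ, Odd m ∧ ∀ σ ∈ GK k t, χb σ ^ m = 1

/-- The data given by Part G. -/
structure GDat (k t f : ℕ) (m : Ideal (OO k t)) (P : Ideal ZZ) (d : Gal(Om/ℚ))
    (T : ℕ → Finset (OO k t)) : Prop where
  odd : Odd f
  fif : 15 ∣ f
  mne : m ≠ ⊥
  m2 : PrI m 2
  mf : PrI m f
  ab : Ab2 P
  dec : ∀ x : ZZ, x ∈ P → d • x ∈ P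
  fix : ∀ n : ℕ, ∀ x ∈ Mn k t f n, d x = x
  fi : ∀ i : Om, i ^ 2 = -1 → d i = i
  rep : ∀ n : ℕ, DS.IsRep f (n + 2) (T n)

/-- (80 lines) **The fields `L_n` and `L'_n`.** -/
def S_LM : Prop :=
  S_Cg → S_Ar3 → S_NiL → S_Ps → S_GalI → S_O1 → S_O2 → S_O6 → S_O7 → S_O9 → S_E1 → S_E8 → DS.S_E9 →
  DS.S_GM → ∀ (k t : ℕ) [Rmf k t] (f : ℕ), Odd f → 15 ∣ f →
    (Lf k t f).fixingSubgroup ≤ GK k t ∧
    ∀ n : ℕ,
      (Ln k t f (n + 2)).fixingSubgroup ≤ (Lf k t f).fixingSubgroup ∧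
      (Mn k t f (n + 2)).fixingSubgroup ≤ (Ln k t f (n + 2)).fixingSubgroup ∧
      (Mn k t f (n + 2)).fixingSubgroup.relIndex (Ln k t f (n + 2)).fixingSubgroup ≠ 0 ∧
      (Ln k t f (n + 1 + 2)).fixingSubgroup ≤ (Ln k t f (n + 2)).fixingSubgroup ∧
      (Mn k t f (n + 1 + 2)).fixingSubgroup ≤ (Mn k t f (n + 2)).fixingSubgroup ∧
      (Mn k t f (n + 1 + 2)).fixingSubgroup.relIndex (Mn k t f (n + 2)).fixingSubgroup ≠ 0 ∧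
      (∀ σ ∈ GK k t, ∀ τ ∈ (Ln k t f (n + 2)).fixingSubgroup,
        σ * τ * σ⁻¹ ∈ (Ln k t f (n + 2)).fixingSubgroup) ∧
      (∀ σ ∈ GK k t, ∀ τ ∈ (Mn k t f (n + 2)).fixingSubgroup,
        σ * τ * σ⁻¹ ∈ (Mn k t f (n + 2)).fixingSubgroup) ∧
      (∀ σ ∈ GK k t, ∀ τ ∈ GK k t, σ * τ * σ⁻¹ * τ⁻¹ ∈ (Mn k t f (n + 2)).fixingSubgroup) ∧
      ∀ τ ∈ GK k t, ∀ a : Ideal (OO k t), Psi τ (f * 2 ^ (n + 2)) a →
        (τ ∈ (Mn k t f (n + 2)).fixingSubgroup ↔ HPN f (n + 2) a)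

/-- (60 lines) **Invariance of `b n`.** -/
def S_BInv : Prop :=
  DS.S_G3 → S_E1 → S_O6 → ∀ (k t : ℕ) [Rmf k t] (f : ℕ) (m : Ideal (OO k t)) (P : Ideal ZZ)
    (d : Gal(Om/ℚ)) (T : ℕ → Finset (OO k t)), GDat k t f m P d T → ∀ n : ℕ, 1 ≤ n →
    ∀ σ ∈ GK k t,
    (∀ τ ∈ (Mn k t f (n + 2)).fixingSubgroup, bb f m d T n (σ * τ) = bb f m d T n σ) ∧
    ∀ a : Ideal (OO k t), Psi σ⁻¹ (f * 2 ^ (n + 2)) a → Gd (2 * f) a ∧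
      bb f m d T n σ = kap (uN f (n + 2) m (T n) a) d

/-- (150 lines) **Norm compatibility of `b n`.** (The element `v` of the proof in DK is now `1` modulo `2 f`.) -/
def S_BNrm : Prop :=
  S_BInv → DS.S_G3 → DI.PI.S_Kap → DS.S_GM → S_Ps → S_Ar2 → S_O1 → S_O2 → S_O6 → S_O7 → S_O9 → S_E1 →
  S_E7 → ∀ (k t : ℕ) [Rmf k t] (f : ℕ) (m : Ideal (OO k t)) (P : Ideal ZZ) (d : Gal(Om/ℚ))
    (T : ℕ → Finset (OO k t)), GDat k t f m P d T →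
    (∀ n : ℕ, (Mn k t f (n + 2)).fixingSubgroup ≤ GK k t) → ∀ n : ℕ, 1 ≤ n →
    ∀ σ ∈ GK k t,
    ∀ R : Finset Gal(Om/ℚ),
    Reps (Mn k t f (n + 2)).fixingSubgroup (Mn k t f (n + 1 + 2)).fixingSubgroup R →
    ∑ r ∈ R, bb f m d T (n + 1) (σ * r) = bb f m d T n σ

/-- (100 lines) **Properties of `A n`.** -/
def S_AP : Prop :=
  DI.PI.S_RpS → S_RpT → ∀ (k t : ℕ) [Rmf k t] (f : ℕ) (m : Ideal (OO k t)) (d : Gal(Om/ℚ))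
    (T : ℕ → Finset (OO k t)),
    (∀ n : ℕ, 1 ≤ n → ∀ σ ∈ GK k t, ∀ τ ∈ (Mn k t f (n + 2)).fixingSubgroup,
      bb f m d T n (σ * τ) = bb f m d T n σ) →
    (∀ n : ℕ, 1 ≤ n → ∀ σ ∈ GK k t, ∀ R : Finset Gal(Om/ℚ),
      Reps (Mn k t f (n + 2)).fixingSubgroup (Mn k t f (n + 1 + 2)).fixingSubgroup R →
      ∑ r ∈ R, bb f m d T (n + 1) (σ * r) = bb f m d T n σ) →
    (∀ n : ℕ, (Ln k t f (n + 2)).fixingSubgroup ≤ GK k t ∧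
      (Mn k t f (n + 2)).fixingSubgroup ≤ (Ln k t f (n + 2)).fixingSubgroup ∧
      (Mn k t f (n + 2)).fixingSubgroup.relIndex (Ln k t f (n + 2)).fixingSubgroup ≠ 0 ∧
      (Ln k t f (n + 1 + 2)).fixingSubgroup ≤ (Ln k t f (n + 2)).fixingSubgroup ∧
      (Mn k t f (n + 1 + 2)).fixingSubgroup ≤ (Mn k t f (n + 2)).fixingSubgroup ∧
      (Mn k t f (n + 1 + 2)).fixingSubgroup.relIndex (Mn k t f (n + 2)).fixingSubgroup ≠ 0) →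
    ∀ n : ℕ, 1 ≤ n → ∀ σ ∈ GK k t,
      (∀ S : Finset Gal(Om/ℚ),
        Reps (Ln k t f (n + 2)).fixingSubgroup (Mn k t f (n + 2)).fixingSubgroup S →
        AA f m d T n σ = ∑ s ∈ S, bb f m d T n (σ * s)) ∧
      (∀ τ ∈ (Ln k t f (n + 2)).fixingSubgroup, AA f m d T n (σ * τ) = AA f m d T n σ) ∧
      ∀ R : Finset Gal(Om/ℚ),
        Reps (Ln k t f (n + 2)).fixingSubgroup (Ln k t f (n + 1 + 2)).fixingSubgroup R →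
        ∑ r ∈ R, AA f m d T (n + 1) (σ * r) = AA f m d T n σ

/-- (80 lines) **Properties of `a n`.** -/
def S_aP : Prop :=
  S_RpT → ∀ (k t : ℕ) [Rmf k t] (f : ℕ) (m : Ideal (OO k t)) (d : Gal(Om/ℚ))
    (T : ℕ → Finset (OO k t)),
    (∀ n : ℕ, 1 ≤ n → ∀ σ ∈ GK k t,
      (∀ τ ∈ (Ln k t f (n + 2)).fixingSubgroup, AA f m d T n (σ * τ) = AA f m d T n σ) ∧
      ∀ R : Finset Gal(Om/ℚ),
        Reps (Ln k t f (n + 2)).fixingSubgroup (Ln k t f (n + 1 + 2)).fixingSubgroup R →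
        ∑ r ∈ R, AA f m d T (n + 1) (σ * r) = AA f m d T n σ) →
    (∀ n : ℕ, (Ln k t f (n + 2)).fixingSubgroup ≤ GK k t ∧
      (Ln k t f (n + 1 + 2)).fixingSubgroup ≤ (Ln k t f (n + 2)).fixingSubgroup ∧
      ∀ σ ∈ GK k t, ∀ τ ∈ (Ln k t f (n + 2)).fixingSubgroup,
        σ * τ * σ⁻¹ ∈ (Ln k t f (n + 2)).fixingSubgroup) →
    ∀ g ∈ GK k t, ∀ n : ℕ, 1 ≤ n → ∀ σ ∈ GK k t,
      (∀ τ ∈ (Ln k t f (n + 2)).fixingSubgroup, aG f m d T g n (σ * τ) = aG f m d T g n σ) ∧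
      ∀ R : Finset Gal(Om/ℚ),
        Reps (Ln k t f (n + 2)).fixingSubgroup (Ln k t f (n + 1 + 2)).fixingSubgroup R →
        ∑ r ∈ R, aG f m d T g (n + 1) (σ * r) = aG f m d T g n σ

/-- (150 lines) **Thaine's relation for `a n`.** -/
def S_AThm : Prop :=
  S_H → DI.PI.S_RpS → S_RpT → ∀ (k t : ℕ) [Rmf k t] (f : ℕ) (m : Ideal (OO k t)) (P : Ideal ZZ)
    (d : Gal(Om/ℚ)) (T : ℕ → Finset (OO k t)), GDat k t f m P d T →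
    ∀ n : ℕ, 1 ≤ n → (Ln k t f (n + 2)).fixingSubgroup ≤ GK k t →
    (Mn k t f (n + 2)).fixingSubgroup ≤ (Ln k t f (n + 2)).fixingSubgroup →
    (Mn k t f (n + 2)).fixingSubgroup.relIndex (Ln k t f (n + 2)).fixingSubgroup ≠ 0 →
    (∀ σ ∈ GK k t, ∀ τ ∈ (Ln k t f (n + 2)).fixingSubgroup,
      σ * τ * σ⁻¹ ∈ (Ln k t f (n + 2)).fixingSubgroup) →
    (∀ σ ∈ GK k t, ∀ τ ∈ (Mn k t f (n + 2)).fixingSubgroup,
      σ * τ * σ⁻¹ ∈ (Mn k t f (n + 2)).fixingSubgroup) →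
    (∀ σ ∈ GK k t, ∀ τ ∈ GK k t, σ * τ * σ⁻¹ * τ⁻¹ ∈ (Mn k t f (n + 2)).fixingSubgroup) →
    (∀ σ ∈ GK k t,
      (∀ S : Finset Gal(Om/ℚ),
        Reps (Ln k t f (n + 2)).fixingSubgroup (Mn k t f (n + 2)).fixingSubgroup S →
        AA f m d T n σ = ∑ s ∈ S, bb f m d T n (σ * s)) ∧
      ∀ τ ∈ (Ln k t f (n + 2)).fixingSubgroup, AA f m d T n (σ * τ) = AA f m d T n σ) →
    ∀ g ∈ GK k t, ∀ φ ∈ VV 2 (Loc 2) (Ln k t f (n + 2)).fixingSubgroup,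
      ∀ τ ∈ (Ln k t f (n + 2)).fixingSubgroup, ∀ R : Finset Gal(Om/ℚ),
      Reps (GK k t) (Ln k t f (n + 2)).fixingSubgroup R →
      ∑ r ∈ R, aG f m d T g n r * φ (r * τ * r⁻¹) = 0

/-- (200 lines) **The system `D`.** PROOF as in DK with `Kn k t n = LyI 15 n _` (`15 * 2 ^ N ∣ f * 2 ^ N`), `Ray (2 f)` instead of
`Ray f`; `ex`: `b` is already prime to `2 f`, so `b₁ = b` (`S_O8` is not needed). -/
def S_DS : Prop :=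
  S_Cg → S_Ar2 → S_Ar3 → S_NiL → S_Ps → S_GalI → S_KF1 → S_LM → S_O1 → S_O2 → S_O6 → S_O7 →
  S_O9 → S_E1 → S_E7 → S_E8 → DS.S_E9 → DS.S_GM → ∀ (k t : ℕ) [Rmf k t] (f n : ℕ), Odd f → 15 ∣ f →
    (Kn k t n).fixingSubgroup ≤ GK k t ∧
    (Mn k t f (n + 2)).fixingSubgroup ≤ (Kn k t n).fixingSubgroup ∧
    ∀ R : Finset Gal(Om/ℚ), Reps (Kn k t n).fixingSubgroup (Mn k t f (n + 2)).fixingSubgroup R →
      ∀ c : Gal(Om/ℚ) → Ideal (OO k t), (∀ r ∈ R, Psi r⁻¹ (f * 2 ^ (n + 2)) (c r)) →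
        (∀ r ∈ R, ∀ r' ∈ R, c r = c r' → r = r') ∧
          ∃ D : Finset (Ideal (OO k t)), (∀ a, a ∈ D ↔ ∃ r ∈ R, c r = a) ∧ IsDS f (n + 2) D

/-- (150 lines) **The component does not vanish.** -/
def S_ANv : Prop :=
  DI.PI.S_RpS → S_RpT → S_BInv → DS.S_G3 → S_E1 → S_O6 → ∀ (k t : ℕ) [Rmf k t] (f : ℕ)
    (m : Ideal (OO k t)) (P P' : Ideal ZZ) (d : Gal(Om/ℚ)) (T : ℕ → Finset (OO k t)),
    GDat k t f m P' d T → P.IsPrime → (2 : ZZ) ∈ P →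
  ∀ n : ℕ, 1 ≤ n → (Kn k t n).fixingSubgroup ≤ GK k t →
    (Ln k t f (n + 2)).fixingSubgroup ≤ (Kn k t n).fixingSubgroup →
    (Ln k t f (n + 2)).fixingSubgroup ≤ (Lf k t f).fixingSubgroup →
    (Mn k t f (n + 2)).fixingSubgroup ≤ (Ln k t f (n + 2)).fixingSubgroup →
    (Mn k t f (n + 2)).fixingSubgroup.relIndex (Ln k t f (n + 2)).fixingSubgroup ≠ 0 →
    (∀ σ ∈ GK k t, ∀ τ ∈ (Ln k t f (n + 2)).fixingSubgroup,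
      σ * τ * σ⁻¹ ∈ (Ln k t f (n + 2)).fixingSubgroup) →
    (∀ σ ∈ GK k t,
      (∀ S : Finset Gal(Om/ℚ),
        Reps (Ln k t f (n + 2)).fixingSubgroup (Mn k t f (n + 2)).fixingSubgroup S →
        AA f m d T n σ = ∑ s ∈ S, bb f m d T n (σ * s)) ∧
      ∀ τ ∈ (Ln k t f (n + 2)).fixingSubgroup, AA f m d T n (σ * τ) = AA f m d T n σ) →
  ∀ (χb : Gal(Om/ℚ) → ZZ ⧸ P) (χ : Ideal (OO k t) → ZZ),
    (∀ σ ∈ GK k t, ∀ τ ∈ GK k t, χb (σ * τ) = χb σ * χb τ) →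
    (∀ σ ∈ (Lf k t f).fixingSubgroup, χb σ = 1) →
    (∀ σ ∈ GK k t, ∀ a : Ideal (OO k t), Psi σ⁻¹ (2 * f) a → Ideal.Quotient.mk P (χ a) = χb σ) →
  ∀ (R' : Finset Gal(Om/ℚ)) (c : Gal(Om/ℚ) → Ideal (OO k t)) (D : Finset (Ideal (OO k t))),
    Reps (Kn k t n).fixingSubgroup (Mn k t f (n + 2)).fixingSubgroup R' →
    (∀ r ∈ R', Psi r⁻¹ (f * 2 ^ (n + 2)) (c r)) → (∀ r ∈ R', ∀ r' ∈ R', c r = c r' → r = r') →
    (∀ a, a ∈ D ↔ ∃ r ∈ R', c r = a) →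
    ¬ MP P (∑ a ∈ D, (χ a : Om) * ((kap (uN f (n + 2) m (T n) a) d).val : Om)) →
  ∀ g ∈ (Kn k t n).fixingSubgroup, χb g ≠ 1 → ∀ R : Finset Gal(Om/ℚ),
    Reps (Kn k t n).fixingSubgroup (Ln k t f (n + 2)).fixingSubgroup R →
    ∑ r ∈ R, ((aG f m d T g n r).val : ZZ ⧸ P) * χb r ≠ 0

/-- (60 lines) **The element `g`.** -/
def S_gEx : Prop :=
  S_Lay → ∀ (k t : ℕ) [Rmf k t] (n : ℕ), FiniteDimensional ℚ (KQ k t) →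
    Layer 2 (KQ k t) n (Kn k t n) →
    (∀ σ ∈ GK k t, ∀ τ ∈ (Kn k t n).fixingSubgroup, σ * τ * σ⁻¹ ∈ (Kn k t n).fixingSubgroup) →
    ∀ (P : Ideal ZZ) (χb : Gal(Om/ℚ) → ZZ ⧸ P),
      (∀ σ ∈ GK k t, ∀ τ ∈ GK k t, χb (σ * τ) = χb σ * χb τ) → χb 1 = 1 →
      (∃ m : ℕ, Odd m ∧ ∀ σ ∈ GK k t, χb σ ^ m = 1) → (∃ σ ∈ GK k t, χb σ ≠ 1) →
      ∃ g ∈ (Kn k t n).fixingSubgroup, χb g ≠ 1

/-- The output of Part G for one character `χ`. -/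
def GO {k t : ℕ} (f : ℕ) (P : Ideal ZZ) (χ : Ideal (OO k t) → Om) : Prop :=
  ∀ m : Ideal (OO k t), m ≠ ⊥ → m ≠ ⊤ → PrI m 2 → PrI m f →
    ∃ N0 : ℕ, 3 ≤ N0 ∧ ∀ N : ℕ, N0 ≤ N → ∀ T : Finset (OO k t), DS.IsRep f N T →
      ∀ D : Finset (Ideal (OO k t)), IsDS f N D →
        ∃ (P' : Ideal ZZ) (d : Gal(Om/ℚ)), Ab2 P' ∧ (∀ x : ZZ, x ∈ P' → d • x ∈ P') ∧
          (∀ n : ℕ, ∀ x ∈ Mn k t f n, d x = x) ∧ (∀ i : Om, i ^ 2 = -1 → d i = i) ∧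
          ¬ MP P (∑ c ∈ D, χ c * ((kap (uN f N m T c) d).val : Om))

/-- (150 lines) **The hypothesis of the descent for `Lf k t f` and one character.** Assembly. `m := sp q` for a prime
number `q` not dividing `2 f` (so `q ≠ 3, 5`). -/
def S_HypC : Prop :=
  S_Chi → S_LM → S_BInv → S_BNrm → S_RpT → S_AP → S_aP → S_AThm → S_DS → S_ANv → S_gEx →
  DI.PI.S_RpS → DI.PI.S_Kap → DI.PI.S_Tei → S_Cg → S_Ar2 → S_Ar3 → S_NiL → S_Ps → S_GalI → S_KF1 →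
  S_O1 → S_O2 → S_O6 → S_O7 → S_O9 → S_E1 → S_E6 → S_E7 → S_E8 → DS.S_E9 → S_Lay →
  S_GR → DS.S_GM → DS.S_G3 → S_H → ∀ (k t : ℕ) [Rmf k t],
  (∀ (f : ℕ) (H : Ideal (OO k t) → Prop), Odd f → 15 ∣ f → NiceI (2 * f) H → (∀ a, H2 f a → H a) →
    ∀ n : ℕ, Layer 2 (FixI (2 * f) H) n (LyI f n H)) →
  (∀ F : IntermediateField ℚ Om, FiniteDimensional ℚ F →
    ∀ (n : ℕ) (F₁ F₂ : IntermediateField ℚ Om), Layer 2 F n F₁ → Layer 2 F n F₂ → F₁ = F₂) →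
  ∀ f : ℕ, Odd f → 15 ∣ f → ∀ P : Ideal ZZ, P.IsPrime → (2 : ZZ) ∈ P →
  ∀ χb : Gal(Om/ℚ) → ZZ ⧸ P, (∀ σ ∈ GK k t, ∀ τ ∈ GK k t, χb (σ * τ) = χb σ * χb τ) →
    (∀ σ ∈ (Lf k t f).fixingSubgroup, χb σ = 1) → (∃ σ ∈ GK k t, χb σ ≠ 1) →
    (∀ χ : Ideal (OO k t) → ZZ, IsChi (2 * f) (fun a => (χ a : Om)) →
      (∀ σ ∈ GK k t, ∀ a : Ideal (OO k t), Psi σ⁻¹ (2 * f) a →
        Ideal.Quotient.mk P (χ a) = χb σ) → GO f P (fun a => (χ a : Om))) →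
    ∃ (n0 : ℕ) (a : ℕ → Gal(Om/ℚ) → ZMod 2), Meas 2 (KQ k t) (Lf k t f) P χb n0 a

/-- (100 lines) **The field `Lf k t f` over `K`.** -/
def S_LK0 : Prop :=
  S_Cg → S_Ar3 → S_Ps → S_GalI → S_O1 → S_O2 → S_O6 → S_O7 → S_E1 → S_E8 →
  ∀ (k t : ℕ) [Rmf k t] (f : ℕ), Odd f → 15 ∣ f →
    FiniteDimensional ℚ (Lf k t f) ∧ KQ k t ≤ Lf k t f ∧
    (∀ σ ∈ (KQ k t).fixingSubgroup, ∀ x ∈ Lf k t f, σ x ∈ Lf k t f) ∧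
    (∀ σ ∈ (KQ k t).fixingSubgroup, ∀ τ ∈ (KQ k t).fixingSubgroup, ∀ x ∈ Lf k t f,
      σ (τ x) = τ (σ x)) ∧
    ¬ 2 * Module.finrank ℚ (KQ k t) ∣ Module.finrank ℚ (Lf k t f)

/-- (80 lines) **`μ = 0` for `K`.** `σ (wO k t)` is a root of `X ^ 2 = t X - k`, so it is `wO` or `t - wO`
(`io (wO k t) = wC k t`, `(wC)^2 = t wC - k`; the number is algebraic). -/
def S_KQ0 : Prop :=
  DI.PI.S_JPe → ThmA → XFinGen 2 (cyc 2 (⊥ : IntermediateField ℚ Om)) → ∀ (k t : ℕ) [Rmf k t],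
    FiniteDimensional ℚ (KQ k t) ∧ XFinGen 2 (cyc 2 (KQ k t))

end Pool.Agent.DR.PI
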