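import Pool.Agent.Lib.DR.PI.SpecC
import Pool.Agent.Lib.DN.PI.Cop

/-!
# THEOREM DR, Part I: the relation of Thaine for `a n`
-/

set_option autoImplicit false

open scoped Pointwise

namespace Pool.Agent.DR.PI

open Pool.Agent.MuZ Pool.Agent.DN
open Pool.Agent.DN.PI (Gd Nm1 NiceI LyI Kn rsys bb AA aG S_RpT S_ExP pri_dvd psi_cop ne_one' d15 d15' d2f)
open Pool.Agent.DI (kap)
open Pool.Agent.DI.PI (Reps)

/-- The argument in an abstract group. -/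
private theorem AThm_abs {G : Type} [Group G] (hRpS : DI.PI.S_RpS) (hRpT : S_RpT)
    (K W H : Subgroup G) (hWK : W ≤ K) (hHW : H ≤ W) (hix : H.relIndex W ≠ 0)
    (A B φ : G → ZMod 2) (hW : ∀ σ ∈ K, ∀ τ ∈ W, σ * τ * σ⁻¹ ∈ W)
    (hC : ∀ σ ∈ K, ∀ τ ∈ K, σ * τ * σ⁻¹ * τ⁻¹ ∈ H)
    (hA1 : ∀ σ ∈ K, ∀ S : Finset G, Reps W H S → A σ = ∑ s ∈ S, B (σ * s))
    (hA2 : ∀ σ ∈ K, ∀ τ ∈ W, A (σ * τ) = A σ)
    (hφ : ∀ g ∈ W, ∀ h ∈ W, φ (g * h) = φ g + φ h)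
    (hS : ∀ Sg : Finset G, Reps K H Sg → ∀ τ ∈ H, ∑ s ∈ Sg, B s * φ (s * τ * s⁻¹) = 0)
    (g : G) (hg : g ∈ K) (τ : G) (hτ : τ ∈ W) (R : Finset G) (hR : Reps K W R) :
    ∑ r ∈ R, (A (r * g⁻¹) + A r) * φ (r * τ * r⁻¹) = 0 := by
  -- conjugation by elements of `W`
  have hφ1 : φ 1 = 0 := by
    have h := hφ 1 W.one_mem 1 W.one_mem
    rw [mul_one] at h
    have h2 : φ 1 + 0 = φ 1 + φ 1 := by rw [add_zero]; exact h
    exact (add_left_cancel h2).symm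
  have hcj : ∀ x ∈ W, ∀ y ∈ W, φ (x * y * x⁻¹) = φ y := by
    intro x hx y hy
    have h1 := hφ (x * y) (W.mul_mem hx hy) x⁻¹ (W.inv_mem hx)
    have h2 := hφ x hx y hy
    have h3 := hφ x hx x⁻¹ (W.inv_mem hx)
    rw [mul_inv_cancel, hφ1] at h3
    rw [h1, h2, add_assoc, add_comm (φ y), ← add_assoc, ← h3, zero_add]
  have hcj2 : ∀ r ∈ K, ∀ t ∈ W, ∀ y ∈ W, φ ((r * t) * y * (r * t)⁻¹) = φ (r * y * r⁻¹) := by
    intro r hr t ht y hy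
    have e : (r * t) * y * (r * t)⁻¹ = (r * t * r⁻¹) * (r * y * r⁻¹) * (r * t * r⁻¹)⁻¹ := by group
    rw [e]
    exact hcj _ (hW r hr t ht) _ (hW r hr y hy)
  -- the invariance
  have hinv : ∀ y ∈ W, ∀ r ∈ K, ∀ t ∈ W,
      A (r * t) * φ ((r * t) * y * (r * t)⁻¹) = A r * φ (r * y * r⁻¹) := by
    intro y hy r hr t ht
    rw [hA2 r hr t ht, hcj2 r hr t ht y hy]
  -- additivity
  have hadd : ∀ x ∈ W, ∀ y ∈ W, ∑ r ∈ R, A r * φ (r * (x * y) * r⁻¹) =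
      ∑ r ∈ R, A r * φ (r * x * r⁻¹) + ∑ r ∈ R, A r * φ (r * y * r⁻¹) := by
    intro x hx y hy
    rw [← Finset.sum_add_distrib]
    refine Finset.sum_congr rfl fun r hr => ?_
    have e : r * (x * y) * r⁻¹ = (r * x * r⁻¹) * (r * y * r⁻¹) := by group
    rw [e, hφ _ (hW r (hR.mem r hr) x hx) _ (hW r (hR.mem r hr) y hy), mul_add]
  -- zero on `H`
  obtain ⟨-, -, hS3⟩ := hRpS G W H H hHW le_rfl
  obtain ⟨S, hSr⟩ := hS3 hix
  obtain ⟨hK1, hK2, -⟩ := hRpS G K W H hWK hHW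
  obtain ⟨Sg, hSg, hSum⟩ := hK2 R S hR hSr
  have hzero : ∀ y ∈ H, ∑ r ∈ R, A r * φ (r * y * r⁻¹) = 0 := by
    intro y hy
    rw [← hS Sg hSg y hy, hSum (ZMod 2) (fun s => B s * φ (s * y * s⁻¹))]
    refine Finset.sum_congr rfl fun r hr => ?_
    rw [hA1 r (hR.mem r hr) S hSr, Finset.sum_mul]
    refine Finset.sum_congr rfl fun s hs => ?_
    change B (r * s) * φ (r * y * r⁻¹) = B (r * s) * φ ((r * s) * y * (r * s)⁻¹)
    rw [hcj2 r (hR.mem r hr) s (hSr.mem s hs) y (hHW hy)]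
  -- conjugation by `g`
  have hgW : g * τ * g⁻¹ ∈ W := hW g hg τ hτ
  have hconj : ∑ r ∈ R, A r * φ (r * (g * τ * g⁻¹) * r⁻¹) = ∑ r ∈ R, A r * φ (r * τ * r⁻¹) := by
    have e : g * τ * g⁻¹ = (g * τ * g⁻¹ * τ⁻¹) * τ := by group
    have hc : g * τ * g⁻¹ * τ⁻¹ ∈ H := hC g hg τ (hWK hτ)
    rw [e, hadd _ (hHW hc) τ hτ, hzero _ hc, zero_add]
  -- the translated system
  obtain ⟨-, -, -, hT4⟩ := hRpT G K W hWK
  have hnorm : ∀ x : G, x ∈ W ↔ g⁻¹ * x * (g⁻¹)⁻¹ ∈ W := by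
    intro x
    constructor
    · intro hx
      exact hW g⁻¹ (K.inv_mem hg) x hx
    · intro hx
      have h := hW g hg _ hx
      have e : g * (g⁻¹ * x * (g⁻¹)⁻¹) * g⁻¹ = x := by group
      rwa [e] at h
  obtain ⟨R', hR', hR'sum⟩ := hT4 g⁻¹ (K.inv_mem hg) hnorm R hR
  have h1 := hR'sum (ZMod 2) (fun r => A r * φ (r * (g * τ * g⁻¹) * r⁻¹))
  have h2 := hK1 (ZMod 2) (fun r => A r * φ (r * (g * τ * g⁻¹) * r⁻¹)) (hinv _ hgW) R' R hR' hR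
  have h3 : ∑ r ∈ R, A (r * g⁻¹) * φ (r * τ * r⁻¹) = ∑ r ∈ R, A r * φ (r * τ * r⁻¹) := by
    rw [← hconj, ← h2, h1]
    refine Finset.sum_congr rfl fun r _ => ?_
    have e : r * g⁻¹ * (g * τ * g⁻¹) * (r * g⁻¹)⁻¹ = r * τ * r⁻¹ := by group
    change _ = A (r * g⁻¹) * φ (r * g⁻¹ * (g * τ * g⁻¹) * (r * g⁻¹)⁻¹)
    rw [e]
  simp only [add_mul]
  rw [Finset.sum_add_distrib, h3]
  exact CharTwo.add_self_eq_zero _

/-- The restriction of a character. -/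
private theorem AThm_res {φ : Gal(Om/ℚ) → ZMod 2} {W H : Subgroup Gal(Om/ℚ)} (hHW : H ≤ W)
    (hφ : φ ∈ VV 2 (Loc 2) W) : ∃ ψ ∈ VV 2 (Loc 2) H, ∀ x ∈ H, ψ x = φ x := by
  classical
  obtain ⟨-, h2, ⟨O, h3⟩, h4⟩ := hφ
  refine ⟨fun x => if x ∈ H then φ x else 0, ⟨?_, ?_, ⟨O, ?_⟩, ?_⟩, ?_⟩
  · intro x hx
    exact if_neg hx
  · intro x hx y hy
    change (if x * y ∈ H then φ (x * y) else 0) = (if x ∈ H then φ x else 0) + if y ∈ H then φ y else 0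
    rw [if_pos hx, if_pos hy, if_pos (H.mul_mem hx hy)]
    exact h2 x (hHW hx) y (hHW hy)
  · intro x hx hO
    change (if x ∈ H then φ x else 0) = 0
    rw [if_pos hx]
    exact h3 x (hHW hx) hO
  · intro Λ hΛ x hx hxH
    change (if x ∈ H then φ x else 0) = 0
    rw [if_pos hxH]
    exact h4 Λ hΛ x hx (hHW hxH)
  · intro x hx
    exact if_pos hx

theorem pAThm : S_AThm := by
  intro hH hRpS hRpT k t _ f m P d T hd n hn1 hWK hHW hix hW hHn hC hA g hg φ hφ τ hτ R hR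
  obtain ⟨ψ, hψ, hψφ⟩ := AThm_res hHW hφ
  refine AThm_abs hRpS hRpT (GK k t) (Ln k t f (n + 2)).fixingSubgroup (Mn k t f (n + 2)).fixingSubgroup
    hWK hHW hix (AA f m d T n) (bb f m d T n) φ hW hC (fun σ hσ => (hA σ hσ).1)
    (fun σ hσ => (hA σ hσ).2) hφ.2.1 ?_ g hg τ hτ R hR
  intro Sg hSg y hy
  have hdM : d ∈ (Mn k t f (n + 2)).fixingSubgroup :=
    (IntermediateField.mem_fixingSubgroup_iff _ _).2 (hd.fix (n + 2))
  have h1 := hH k t f m (n + 2) (T n) hd.odd hd.fif hd.mne hd.m2 hd.mf (by omega) (hd.rep n) ⊤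
    top_ne_bot (top_sup_eq _) ψ hψ P d hd.ab.1 hd.ab.2 hd.dec hdM hd.fi Sg hSg.mem hSg.ex
    hSg.uni y hy
  rw [← h1]
  refine Finset.sum_congr rfl fun s hs => ?_
  rw [hψφ _ (hHn s (hSg.mem s hs) y hy)]
  rfl

end Pool.Agent.DR.PI
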