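import Pool.Agent.Lib.DR.PI.Asm
import Pool.Agent.Lib.DR.PI.FW2
import Pool.Agent.Lib.DR.E.AllZ
import Pool.Agent.Lib.DR.G.GR
import Pool.Agent.Lib.DR.H3.AllZ
import Pool.Agent.Lib.DS.H3.AllZ

/-!
# THEOREM DR, Part I (helper55): the hypotheses `InG` without hypotheses, up to Part G

`tDR_of : S_G → ThmDR`.
-/

set_option autoImplicit false

noncomputable section

namespace Pool.Agent.DR.PI

open Pool.Agent.MuZ Pool.Agent.DN

/-- The statements of the other parts. -/
theorem zInG (G : S_G) : InG where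
  R1 := DS.zR1
  E1 := DS.zE1
  E6 := DS.zE6
  E7 := DS.zE7
  E8 := DS.zE8
  E9 := DS.zE9
  GR := DR.G.aGR
  GM := DS.H3.zGM
  G3 := DS.H3.zG3
  H := H3.zH
  G := G

/-- **Theorem DR** from Part G. -/
theorem tDR_of (G : S_G) : ThmDR := thmDR_of fw2 (zInG G)

end Pool.Agent.DR.PI
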