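import Pool.Agent.Lib.DR.PI.SpecC
import Pool.Agent.Lib.DN.Base

/-!
# THEOREM DR, Part I (helper55): Chinese remainder; the norms of the elements which are `1` modulo `2 f`
-/

set_option autoImplicit false

open scoped Pointwise

namespace Pool.Agent.DR.PI

open Pool.Agent.MuZ Pool.Agent.DN

private theorem Ar2_crt {k t : ℕ} (f N : ℕ) (a b : OO k t) (hf : Odd f) :
    ∃ v : OO k t, (f : OO k t) ∣ v - a ∧ ((2 ^ N : ℕ) : OO k t) ∣ v - b := by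
  have h1 : f.Coprime (2 ^ N) := (Nat.Coprime.pow_right N hf.coprime_two_right)
  obtain ⟨x, y, hxy⟩ : IsCoprime (f : OO k t) ((2 ^ N : ℕ) : OO k t) := Nat.Coprime.cast h1
  refine ⟨a * y * ((2 ^ N : ℕ) : OO k t) + b * x * (f : OO k t), ⟨x * (b - a), ?_⟩,
    ⟨y * (a - b), ?_⟩⟩
  · linear_combination a * hxy
  · linear_combination b * hxy

/-- The odd squares modulo `2 ^ N` are the classes which are `1` modulo `8`. -/
private theorem Ar2_sq (c : ℤ) (hc : (8 : ℤ) ∣ c - 1) (N : ℕ) :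
    ∃ x : ℤ, (2 : ℤ) ∣ x - 1 ∧ (2 : ℤ) ^ (N + 3) ∣ x ^ 2 - c := by
  induction N with
  | zero =>
    obtain ⟨j, hj⟩ := hc
    exact ⟨1, ⟨0, by ring⟩, ⟨-j, by linear_combination -hj⟩⟩
  | succ N ih =>
    obtain ⟨x, ⟨i, hi⟩, ⟨j, hj⟩⟩ := ih
    -- `x + 2 ^ (N + 2) j`: the square is `x ^ 2 + 2 ^ (N + 3) j x + 2 ^ (2 N + 4) j ^ 2`
    refine ⟨x + 2 ^ (N + 2) * j, ⟨i + 2 ^ (N + 1) * j, ?_⟩,
      ⟨j * (1 + i) + 2 ^ N * j ^ 2, ?_⟩⟩
    · linear_combination hi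
    · linear_combination hj + 2 ^ (N + 3) * j * hi

theorem pAr2 : S_Ar2 := by
  intro k t _
  refine ⟨Ar2_crt, ?_⟩
  intro f N c hf hc
  obtain ⟨x, ⟨i, hi⟩, ⟨j, hj⟩⟩ := Ar2_sq c hc N
  obtain ⟨a, b, hab⟩ : IsCoprime (f : ℤ) ((2 ^ (N + 3) : ℕ) : ℤ) :=
    Nat.isCoprime_iff_coprime.2 (Nat.Coprime.pow_right _ hf.coprime_two_right)
  push_cast at hab
  -- `y = 1` modulo `f`, `y = x` modulo `2 ^ (N + 3)`
  obtain ⟨y, hy⟩ : ∃ y : ℤ, y = b * 2 ^ (N + 3) + x * a * f := ⟨_, rfl⟩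
  have hy1 : y - 1 = f * (a * (x - 1)) := by
    rw [hy]
    linear_combination hab
  have hy2 : y - x = 2 ^ (N + 3) * (b * (1 - x)) := by
    rw [hy]
    linear_combination x * hab
  have h2f : ((2 * f : ℕ) : ℤ) ∣ y - 1 := by
    refine ⟨a * i, ?_⟩
    rw [hy1, hi]
    push_cast
    ring
  refine ⟨(y : OO k t), ?_, ?_⟩
  · obtain ⟨z, hz⟩ := h2f
    refine ⟨(z : OO k t), ?_⟩
    have h3 := congrArg (Int.cast : ℤ → OO k t) hz
    push_cast at h3 ⊢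
    exact h3
  · have hN : Nm ((y : ℤ) : OO k t) = y ^ 2 := Nm_int y
    rw [hN]
    refine ⟨8 * (j + b * (1 - x) * (y + x)), ?_⟩
    have e : (2 : ℤ) ^ (N + 3) = 2 ^ N * 8 := by ring
    rw [e] at hy2 hj
    linear_combination (y + x) * hy2 + hj

end Pool.Agent.DR.PI
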