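import Pool.Agent.Lib.DR.PI.SpecC
import Pool.Agent.Lib.DN.PI.Cop
import Pool.Agent.Lib.DN.Base

/-!
# Theorem DR, Part I, module Ar3: exponents
-/

set_option autoImplicit false

open scoped Pointwise nonZeroDivisors

noncomputable section

namespace Pool.Agent.DR.PI

open Pool.Agent.MuZ Pool.Agent.DN NumberField IsDedekindDomain
open Pool.Agent.DN.PI (Gd Nm1 NiceI LyI Kn rsys bb AA aG S_RpT S_ExP pri_dvd psi_cop ne_one' d15 d15' d2f)
open Pool.Agent.DI (io ofC io_inj exists_io io_ofC ofC_io VP MP UP TP ex sqr sqr_sq kap)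

variable {k t : ℕ}

private theorem Ar3_top (k t N : ℕ) [Rmf k t] : Gd N (⊤ : Ideal (OO k t)) := ⟨top_ne_bot, top_sup_eq _⟩

private theorem Ar3_pri_of_pow {N n : ℕ} {a : Ideal (OO k t)} (hn : n ≠ 0) (h : PrI (a ^ n) N) :
    PrI a N := by
  unfold PrI at *
  rw [eq_top_iff, ← h]
  exact sup_le_sup_right (Ideal.pow_le_self hn) _

private theorem Ar3_gd_pow [Rmf k t] [IsDomain (OO k t)] (hO6 : S_O6) {N : ℕ} {a : Ideal (OO k t)} (h : Gd N a) (n : ℕ) :
    Gd N (a ^ n) := by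
  induction n with
  | zero =>
    rw [pow_zero, Ideal.one_eq_top]
    exact Ar3_top k t N
  | succ n ih =>
    rw [pow_succ]
    refine ⟨?_, ((hO6 k t).1 N _ _).2 ⟨ih.2, h.2⟩⟩
    have h1 : a ^ n * a ≠ 0 := mul_ne_zero (by simpa using ih.1) (by simpa using h.1)
    simpa using h1

private theorem Ar3_ray_pow [Rmf k t] (hO7 : S_O7) {N : ℕ} (hN : 0 < N) {a b : Ideal (OO k t)}
    (h : Ray N a b) (n : ℕ) : Ray N (a ^ n) (b ^ n) := by
  obtain ⟨hr, -, -, hm, -⟩ := hO7 k t N hN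
  induction n with
  | zero =>
    rw [pow_zero, pow_zero]
    exact hr _
  | succ n ih =>
    rw [pow_succ, pow_succ]
    exact hm _ _ _ _ ih h

/-- The class function and its powers. -/
private theorem Ar3_cls [Rmf k t] (hCg : S_Cg) (hO1 : S_O1) (hO6 : S_O6) (hO7 : S_O7) {N : ℕ}
    (hN : 0 < N) : ∃ (C : Type) (_ : CommGroup C) (_ : Finite C) (c : Ideal (OO k t) → C),
      (∀ a : Ideal (OO k t), Gd N a → ∀ n : ℕ, c (a ^ n) = c a ^ n) ∧
      ∀ a : Ideal (OO k t), Gd N a → (Ray N a ⊤ ↔ c a = 1) := by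
  haveI : IsDedekindDomain (OO k t) := hO1 k t
  obtain ⟨C, i1, i2, c, h1, h2, -⟩ := hCg hO1 hO6 hO7 k t N hN
  have ht : c ⊤ = 1 := by
    have h := h1 ⊤ ⊤ (Ar3_top k t N) (Ar3_top k t N)
    rw [Ideal.mul_top] at h
    exact (mul_eq_left.1 h.symm)
  refine ⟨C, i1, i2, c, ?_, ?_⟩
  · intro a ha n
    induction n with
    | zero => rw [pow_zero, pow_zero, Ideal.one_eq_top, ht]
    | succ n ih => rw [pow_succ, pow_succ, h1 _ _ (Ar3_gd_pow hO6 ha n) ha, ih]
  · intro a ha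
    rw [← h2 a ⊤ ha (Ar3_top k t N), ht]

private theorem Ar3_pow2 {v : OO k t} (h : (2 : OO k t) ∣ v - 1) (i : ℕ) :
    (2 : OO k t) ^ (i + 1) ∣ v ^ 2 ^ i - 1 := by
  induction i with
  | zero => simpa using h
  | succ i ih =>
    obtain ⟨u, hu⟩ := ih
    have e : v ^ 2 ^ (i + 1) = (v ^ 2 ^ i) ^ 2 := by
      rw [← pow_mul, pow_succ]
    have e2 : v ^ 2 ^ i = 1 + 2 ^ (i + 1) * u := by
      linear_combination hu
    rw [e, e2]
    refine ⟨u + 2 ^ i * u ^ 2, ?_⟩
    ring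

private theorem Ar3_dvd_mul {f n : ℕ} (hc : f.Coprime n) {v : OO k t} (h1 : (f : OO k t) ∣ v)
    (h2 : (n : OO k t) ∣ v) : ((f * n : ℕ) : OO k t) ∣ v := by
  obtain ⟨a1, b1⟩ := (nat_dvd_iff f v).1 h1
  obtain ⟨a2, b2⟩ := (nat_dvd_iff n v).1 h2
  have hc' : IsCoprime (f : ℤ) (n : ℤ) := Nat.isCoprime_iff_coprime.2 hc
  rw [nat_dvd_iff]
  push_cast
  exact ⟨hc'.mul_dvd a1 a2, hc'.mul_dvd b1 b2⟩

private theorem Ar3_cancel {R : Type} [CommRing R] [IsDomain R] {α α' : R} {B : Ideal R}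
    (hα : α ≠ 0) (h : Ideal.span {α} * B = Ideal.span {α'}) :
    ∃ v : R, α' = α * v ∧ B = Ideal.span {v} := by
  have h0 : α' ∈ Ideal.span {α} * B := by
    rw [h]
    exact Ideal.mem_span_singleton_self _
  obtain ⟨v, hvB, hv⟩ := Ideal.mem_span_singleton_mul.1 h0
  refine ⟨v, hv.symm, le_antisymm ?_ ?_⟩
  · intro x hx
    have h1 : α * x ∈ Ideal.span {α'} := by
      rw [← h]
      exact Ideal.mem_span_singleton_mul.2 ⟨x, hx, rfl⟩
    obtain ⟨c, hc⟩ := Ideal.mem_span_singleton'.1 h1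
    refine Ideal.mem_span_singleton'.2 ⟨c, mul_left_cancel₀ hα ?_⟩
    rw [← hv] at hc
    linear_combination hc
  · rw [Ideal.span_singleton_le_iff_mem]
    exact hvB

theorem pAr3 : S_Ar3 := by
  intro hCg hO1 hO2 hO6 hO7 k t _
  haveI : IsDedekindDomain (OO k t) := hO1 k t
  constructor
  · intro f hf
    have hf0 : 0 < f := hf.pos
    have hf2 : 0 < 2 * f := by positivity
    obtain ⟨hr, hs, htr, hm, -, hcop, -⟩ := hO7 k t (2 * f) hf2
    obtain ⟨C, i1, i2, c, hcp, hc1⟩ := Ar3_cls (k := k) (t := t) hCg hO1 hO6 hO7 hf2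
    have hcard : Nat.card C ≠ 0 := Nat.card_pos.ne'
    obtain ⟨e0, m, hmo, hcm⟩ := Nat.exists_eq_two_pow_mul_odd hcard
    have hexp : ∀ x : C, x ^ (2 ^ e0 * m) = 1 := fun x => by
      rw [← hcm]
      exact pow_card_eq_one'
    refine ⟨⟨m, hmo, ?_⟩, ?_, ?_⟩
    · intro a ha
      refine ⟨e0, ?_⟩
      rw [← pow_mul, hc1 _ (Ar3_gd_pow hO6 ha _), hcp a ha, mul_comm]
      exact hexp _
    · intro N
      refine ⟨e0 + N, ?_⟩
      intro a ha h2
      have hM0 : 0 < f * 2 ^ N := by positivity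
      obtain ⟨hO6a, hO6b, hO6c, hO6d, -⟩ := hO6 k t
      obtain ⟨j, hj⟩ := h2
      have hn : 2 ^ j ≠ 0 := by positivity
      have haf : Gd (2 * f) a := ⟨ha.1, Ar3_pri_of_pow hn (((hcop _ _ hj).2).2 (Ar3_top k t _).2)⟩
      have hx1 : c a ^ 2 ^ j = 1 := by
        rw [← hcp a haf]
        exact (hc1 _ (Ar3_gd_pow hO6 haf _)).1 hj
      have hx2 : c a ^ 2 ^ e0 = 1 := by
        apply orderOf_dvd_iff_pow_eq_one.1
        have h3 : orderOf (c a) ∣ 2 ^ j := orderOf_dvd_of_pow_eq_one hx1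
        have h4 : orderOf (c a) ∣ 2 ^ e0 * m := orderOf_dvd_of_pow_eq_one (hexp _)
        have h5 : (orderOf (c a)).Coprime m :=
          Nat.Coprime.coprime_dvd_left h3
            (Nat.Coprime.pow_left j ((Nat.coprime_two_left).2 hmo))
        exact h5.dvd_of_dvd_mul_right h4
      have hB : Ray (2 * f) (a ^ 2 ^ e0) ⊤ := by
        rw [hc1 _ (Ar3_gd_pow hO6 haf _), hcp a haf]
        exact hx2
      obtain ⟨α, α', hα, hα', hcα, -, hd, hsp⟩ := hB
      rw [Ideal.mul_top] at hsp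
      obtain ⟨v, hv', hBv⟩ := Ar3_cancel hα hsp
      have hv0 : v ≠ 0 := by
        rintro rfl
        rw [mul_zero] at hv'
        exact hα' hv'
      have h2fv : ((2 * f : ℕ) : OO k t) ∣ v - 1 := by
        obtain ⟨b, -, hb⟩ := cop_inv hcα
        have h9 : ((2 * f : ℕ) : OO k t) ∣ α * (v - 1) := by
          have e : α * (v - 1) = -(α - α') := by rw [hv']; ring
          rw [e]
          exact hd.neg_right
        have e : v - 1 = b * (α * (v - 1)) - (α * b - 1) * (v - 1) := by ring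
        rw [e]
        exact dvd_sub (h9.mul_left b) (hb.mul_right _)
      have h22 : (2 : OO k t) ∣ v - 1 := by
        refine dvd_trans ?_ h2fv
        rw [Nat.cast_mul, Nat.cast_ofNat]
        exact dvd_mul_right _ _
      have hfv : (f : OO k t) ∣ v - 1 := by
        refine dvd_trans ?_ h2fv
        rw [Nat.cast_mul]
        exact dvd_mul_left _ _
      have h2v : ((2 ^ N : ℕ) : OO k t) ∣ v ^ 2 ^ N - 1 := by
        have h13 := Ar3_pow2 h22 N
        push_cast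
        exact (pow_dvd_pow 2 (Nat.le_succ N)).trans h13
      have hfw : (f : OO k t) ∣ v ^ 2 ^ N - 1 := by
        refine hfv.trans ?_
        have := sub_dvd_pow_sub_pow v 1 (2 ^ N)
        rwa [one_pow] at this
      have hMw : ((f * 2 ^ N : ℕ) : OO k t) ∣ v ^ 2 ^ N - 1 :=
        Ar3_dvd_mul (Nat.Coprime.pow_right N ((Nat.coprime_two_right).2 hf)) hfw h2v
      have hw : a ^ 2 ^ (e0 + N) = sp (v ^ 2 ^ N) := by
        rw [pow_add, pow_mul, hBv]
        exact Ideal.span_singleton_pow v (2 ^ N)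
      rw [hw]
      refine ⟨1, v ^ 2 ^ N, one_ne_zero, pow_ne_zero _ hv0, cop_one _, ?_, ?_, ?_⟩
      · refine cop_congr ?_ (cop_one (n := k) (t := t) (f * 2 ^ N))
        rw [← neg_sub]
        exact hMw.neg_right
      · rw [← neg_sub]
        exact hMw.neg_right
      · rw [Ideal.mul_top]
        change Ideal.span {(1 : OO k t)} * _ = _
        rw [Ideal.span_singleton_one, Ideal.top_mul]
    · refine ⟨⟨0, ?_⟩, ?_, ?_, ?_⟩
      · rw [pow_zero, pow_one]
        exact hr _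
      · rintro a ⟨j, hj⟩
        obtain ⟨h1, h2⟩ := hcop _ _ hj
        have hn : 2 ^ j ≠ 0 := by positivity
        refine ⟨?_, Ar3_pri_of_pow hn (h2.2 (Ar3_top k t (2 * f)).2)⟩
        rintro rfl
        apply h1.2 top_ne_bot
        have : (0 : Ideal (OO k t)) ^ 2 ^ j = 0 := zero_pow hn
        simpa using this
      · rintro a a' ⟨j, hj⟩ haa
        exact ⟨j, htr _ _ _ (hs _ _ (Ar3_ray_pow hO7 hf2 haa _)) hj⟩
      · rintro a a' ⟨j, hj⟩ ⟨j', hj'⟩
        refine ⟨j + j', ?_⟩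
        have e : (a * a') ^ 2 ^ (j + j') = (a ^ 2 ^ j) ^ 2 ^ j' * (a' ^ 2 ^ j') ^ 2 ^ j := by
          rw [mul_pow, ← pow_mul, ← pow_mul, pow_add, mul_comm (2 ^ j') (2 ^ j)]
        have h1 := Ar3_ray_pow hO7 hf2 hj (2 ^ j')
        have h2 := Ar3_ray_pow hO7 hf2 hj' (2 ^ j)
        have h3 := hm _ _ _ _ h1 h2
        rw [← Ideal.one_eq_top, one_pow, one_pow, one_mul, Ideal.one_eq_top] at h3
        rw [e]
        exact h3
  · intro N H hN hH a ha
    obtain ⟨C, i1, i2, c, hcp, hc1⟩ := Ar3_cls (k := k) (t := t) hCg hO1 hO6 hO7 hN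
    have hpow : ∀ n : ℕ, H (a ^ n) := by
      intro n
      induction n with
      | zero =>
        rw [pow_zero, Ideal.one_eq_top]
        exact hH.top
      | succ n ih =>
        rw [pow_succ]
        exact hH.mul _ _ ih ha
    have hcard : 0 < Nat.card C := Nat.card_pos
    refine ⟨a ^ (Nat.card C - 1), hpow _, ?_⟩
    have hga : Gd N a := hH.cop a ha
    have e : a * a ^ (Nat.card C - 1) = a ^ Nat.card C := by
      rw [← pow_succ', Nat.sub_add_cancel hcard]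
    rw [e, hc1 _ (Ar3_gd_pow hO6 hga _), hcp a hga]
    exact pow_card_eq_one'

end Pool.Agent.DR.PI
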