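import Pool.Agent.Lib.DN.PI.Cop
import Pool.Agent.Lib.DR.PI.SpecC
import Pool.Agent.Lib.DN.Base

/-!
# THEOREM DR, Part I, module DS: the system `D`
-/

set_option autoImplicit false

open scoped Pointwise

namespace Pool.Agent.DR.PI

open Pool.Agent.MuZ Pool.Agent.DN
open Pool.Agent.DN.PI (Gd Nm1 NiceI LyI Kn rsys bb AA aG S_RpT S_ExP pri_dvd psi_cop ne_one' d15 d15' d2f)
open Pool.Agent.DI (io ofC io_inj exists_io io_ofC ofC_io VP MP UP TP ex sqr sqr_sq kap)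
open Pool.Agent.DI.PI (Reps HypI Meas tr)

theorem pDS : S_DS := by
  intro hCg hAr2 hAr3 hNiL hPs hGalI hKF1 hLM hO1 hO2 hO6 hO7 hO9 hE1 hE7 hE8 hE9 hGM
    k t _ f n hf h3
  classical
  have hf0 : 0 < f := hf.pos
  have hf2 : 0 < 2 * f := Nat.mul_pos two_pos hf0
  have h2N : 0 < 2 ^ (n + 2) := pow_pos two_pos _
  have hM : 0 < f * 2 ^ (n + 2) := Nat.mul_pos hf0 h2N
  obtain ⟨e1, e2, -, e4, e5⟩ := hE1 k t _ hM (d15 h3 _)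
  obtain ⟨r1, r2, r3, r4, -, -, -, -, -, -⟩ := hO7 k t (2 * f) hf2
  obtain ⟨-, -, -, -, -, -, r7, -, -, -⟩ := hO7 k t _ hM
  obtain ⟨-, -, -, nmI, nIm, -, -, -⟩ := hO2 k t
  obtain ⟨o1, o2, o3, -, -⟩ := hO6 k t
  obtain ⟨-, s2, -, -, s5⟩ := hPs hO7 hE1 k t _ hM (d15 h3 _)
  -- the field `E`
  obtain ⟨hn1, -⟩ := hKF1 hO1 hO6 hO7 hE1 hE8 hPs hGalI k t
  have hnE := hNiL hO1 hO2 hO6 hO7 hO9 k t 15 _ (by norm_num) hn1 n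
  obtain ⟨-, -, EGK, Emem, -, -, -, -⟩ :=
    hGalI hO7 hE1 hE8 hPs k t _ _ (Nat.mul_pos (by norm_num) h2N) (d15 dvd_rfl _) hnE
  change (Kn k t n).fixingSubgroup ≤ GK k t at EGK
  -- the field `F`
  obtain ⟨hLG, hlm⟩ := hLM hCg hAr3 hNiL hPs hGalI hO1 hO2 hO6 hO7 hO9 hE1 hE8 hE9 hGM k t f hf h3
  obtain ⟨hLL, hML, -, -, -, -, -, Mcon, -, Mmem⟩ := hlm n
  obtain ⟨⟨hp1, hp2, hp3, hp4⟩, hpn, -⟩ := hGM k t f hf h3
  have hMG : (Mn k t f (n + 2)).fixingSubgroup ≤ GK k t := (hML.trans hLL).trans hLG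
  have hMm : ∀ τ ∈ GK k t, ∀ a : Ideal (OO k t), Psi τ (f * 2 ^ (n + 2)) a →
      (τ ∈ (Mn k t f (n + 2)).fixingSubgroup ↔ HP f a ∧ Nm1 (n + 2) a) := fun τ hτ a ha =>
    (Mmem τ hτ a ha).trans ((hpn (n + 2) (by omega)).2.2.2.2 a ha.ne (psi_cop ha))
  have hEm : ∀ τ ∈ GK k t, ∀ a : Ideal (OO k t), Psi τ (f * 2 ^ (n + 2)) a →
      (τ ∈ (Kn k t n).fixingSubgroup ↔ Nm1 (n + 2) a) := by
    intro τ hτ a ha
    have h1 : Psi τ (15 * 2 ^ (n + 2)) a := e5 τ _ a ha (mul_dvd_mul h3 dvd_rfl) (d15 dvd_rfl _)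
    have h2 : Gd (2 * 15) a :=
      ⟨ha.ne, pri_dvd (psi_cop ha) ((mul_dvd_mul_left 2 h3).trans (d2f f n))⟩
    exact (Emem τ hτ a h1).trans ⟨fun h => h.2, fun h => ⟨h2, h⟩⟩
  refine ⟨EGK, ?_, ?_⟩
  · intro τ hτ
    obtain ⟨a, ha⟩ := e1 τ (hMG hτ)
    exact (hEm τ (hMG hτ) a ha).2 ((hMm τ (hMG hτ) a ha).1 hτ).2
  intro R hR c hc
  have RGK : ∀ r ∈ R, r ∈ GK k t := fun r hr => EGK (hR.mem r hr)
  refine ⟨?_, R.image c, fun a => Finset.mem_image, ?_, ?_, ?_⟩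
  · intro r hr r' hr' hcc
    have h1 : Psi (r⁻¹⁻¹ * r'⁻¹) (f * 2 ^ (n + 2)) (⊤ : Ideal (OO k t)) :=
      s5 r⁻¹ (inv_mem (RGK r hr)) r'⁻¹ (inv_mem (RGK r' hr')) _ _ (hc r hr) (hc r' hr')
        (by rw [hcc]; exact (hO7 k t _ hM).1 _)
    rw [inv_inv] at h1
    have h2 : r * r'⁻¹ ∈ (Mn k t f (n + 2)).fixingSubgroup :=
      (Mmem _ (mul_mem (RGK r hr) (inv_mem (RGK r' hr'))) _ h1).2 (hpn (n + 2) (by omega)).1
    have h4 := Mcon r'⁻¹ (inv_mem (RGK r' hr')) _ h2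
    rw [inv_inv, mul_assoc, mul_assoc, inv_mul_cancel, mul_one] at h4
    exact (hR.uni r' hr' r hr h4).symm
  · -- `mem`
    intro a ha
    obtain ⟨r, hr, rfl⟩ := Finset.mem_image.1 ha
    refine ⟨(hc r hr).ne, ?_, (hEm r⁻¹ (inv_mem (RGK r hr)) _ (hc r hr)).1 (inv_mem (hR.mem r hr))⟩
    exact pri_dvd (psi_cop (hc r hr)) (d2f f n)
  · -- `ex`
    intro b1 hb10 hb1p hnm
    obtain ⟨hb12, hb1f⟩ := (o2 _ _ _).1 hb1p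
    have hν : (NI b1).Coprime 2 := (o3 2 b1 two_pos).1 hb12
    have hν2 : (NI b1).Coprime (2 ^ (n + 2)) := Nat.Coprime.pow_right _ hν
    have hpb' : PrI b1 (f * 2 ^ (n + 2)) := (o2 _ _ _).2 ⟨hb1f, (o3 _ _ h2N).2 hν2⟩
    obtain ⟨τ, hτ, hτ'⟩ := hE7 k t _ _ hM (d15 h3 _) hb10 hpb'
    have hτE : τ ∈ (Kn k t n).fixingSubgroup := (hEm τ hτ _ hτ').2 hnm
    obtain ⟨r, hr, hrτ⟩ := hR.ex τ⁻¹ (inv_mem hτE)
    obtain ⟨e, he⟩ := e1 _ (hMG hrτ)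
    have hHPe : HP f e := ((hMm _ (hMG hrτ) e he).1 hrτ).1
    have h5 := e4 _ _ _ _ he hτ'
    rw [inv_mul_cancel_right] at h5
    have h6 : Ray (2 * f) (c r) (e * b1) :=
      r7 (2 * f) _ _ (d2f f n) (e2 _ _ _ (hc r hr) h5)
    obtain ⟨a', ha', hea'⟩ := (hAr3 hCg hO1 hO2 hO6 hO7 k t).2 (2 * f) (HP f) hf2
      ⟨hp1, hp2, hp3, hp4⟩ e hHPe
    refine ⟨c r, Finset.mem_image_of_mem c hr, a', ha', ?_⟩
    have h7 : Ray (2 * f) b1 (a' * (e * b1)) := by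
      have h8 := r4 _ _ _ _ (r2 _ _ hea') (r1 b1)
      rw [Ideal.top_mul] at h8
      have h9 : e * a' * b1 = a' * (e * b1) := by
        rw [mul_comm e a', mul_assoc]
      rwa [h9] at h8
    exact r3 _ _ _ h7 (r4 _ _ _ _ (r1 a') (r2 _ _ h6))
  · -- `uni`
    intro x hx y hy hxy
    obtain ⟨r, hr, rfl⟩ := Finset.mem_image.1 hx
    obtain ⟨r', hr', rfl⟩ := Finset.mem_image.1 hy
    obtain ⟨a, ha, hay⟩ := hxy
    obtain ⟨e, he, hre⟩ := s2 r⁻¹ (inv_mem (RGK r hr)) _ (hc r hr)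
    rw [inv_inv] at he
    have h1 : Psi (r'⁻¹ * r) (f * 2 ^ (n + 2)) (c r' * e) := e4 _ _ _ _ (hc r' hr') he
    have hg : r'⁻¹ * r ∈ GK k t := mul_mem (inv_mem (RGK r' hr')) (RGK r hr)
    have h2 : Ray (2 * f) (c r' * e) a := by
      have h5 := r4 _ _ _ _ hay (r1 e)
      rw [mul_assoc] at h5
      have h6 := r4 _ _ _ _ (r1 a) (r7 (2 * f) _ _ (d2f f n) hre)
      rw [Ideal.mul_top] at h6
      exact r3 _ _ _ h5 h6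
    have h4 : HP f (c r' * e) := hp3 _ _ ha (r2 _ _ h2)
    have h5 : Nm1 (n + 2) (c r' * e) :=
      (hEm _ hg _ h1).1 (mul_mem (inv_mem (hR.mem r' hr')) (hR.mem r hr))
    have h6 : r' = r := hR.uni r' hr' r hr ((hMm _ hg _ h1).2 ⟨h4, h5⟩)
    rw [h6]

end Pool.Agent.DR.PI
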