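import Pool.Agent.Lib.DR.PI.SpecD

/-!
# THEOREM DR, Part I, module FT: number fields inside the field `Wf`
-/

set_option autoImplicit false

open scoped Pointwise

noncomputable section

namespace Pool.Agent.DR.PI

open Pool.Agent.MuZ Pool.Agent.DN
open Pool.Agent.DS.PI (RCF)

theorem pFT (hO1 : DN.S_O1) (hO6 : DN.S_O6) (hL2 : DN.S_L2) (hB1 : DN.S_B1) (hB7 : DN.S_B7)
    (r1 : DS.S_R1) (k t : ℕ) [SqN k t] (F : IntermediateField ℚ Om)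
    (hF : FiniteDimensional ℚ F) (hFT : F ≤ Wf k t) :
    ∃ f N : ℕ, Odd f ∧ 15 ∣ f ∧ 1 ≤ N ∧ F ≤ RCF k t (f * 2 ^ N) := by
  obtain ⟨M, hM, h⟩ := DS.PI.ft hO1 hO6 hL2 hB1 hB7 r1 k t F hF hFT
  have h0 : 30 * M ≠ 0 := by omega
  obtain ⟨N, f, hf, hfN⟩ := Nat.exists_eq_two_pow_mul_odd h0
  have h30 : 30 ∣ 2 ^ N * f := ⟨M, hfN.symm⟩
  have h15 : 15 ∣ f := by
    have h1 : 15 ∣ 2 ^ N * f := (show 15 ∣ 30 from ⟨2, rfl⟩).trans h30
    exact (Nat.Coprime.pow_right N (by norm_num : Nat.Coprime 15 2)).dvd_of_dvd_mul_left h1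
  have hN : 1 ≤ N := by
    rcases Nat.eq_zero_or_pos N with rfl | h2
    · exfalso
      rw [pow_zero, one_mul] at h30
      have h3 : 2 ∣ f := (show 2 ∣ 30 from ⟨15, rfl⟩).trans h30
      obtain ⟨j, hj⟩ := hf
      omega
    · exact h2
  refine ⟨f, N, hf, h15, hN, ?_⟩
  have e : f * 2 ^ N = 30 * M := by rw [mul_comm]; exact hfN.symm
  rw [e]
  exact h _ (by omega) (Dvd.dvd.mul_right ⟨2, rfl⟩ M) (Dvd.intro_left 30 rfl)

end Pool.Agent.DR.PI
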