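import Pool.Agent.Lib.DN.PI.Cop
import Pool.Agent.Lib.DR.PI.SpecC
import Pool.Agent.Lib.DN.Base
import Pool.Agent.Lib.MuZ.AsmA
import Pool.Agent.Lib.MuZ.Inst

/-!
# THEOREM DR, Part I, module HypC (helper55): the hypothesis of the descent for `Lf k t f`
-/

set_option autoImplicit false

open scoped Pointwise

namespace Pool.Agent.DR.PI

open Pool.Agent.MuZ Pool.Agent.DN
open Pool.Agent.DN.PI (Gd Nm1 NiceI LyI Kn rsys bb AA aG S_RpT S_ExP pri_dvd psi_cop ne_one' d15 d15' d2f)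
open Pool.Agent.DI (io ofC io_inj exists_io io_ofC ofC_io VP MP UP TP ex sqr sqr_sq kap)
open Pool.Agent.DI.PI (Reps HypI Meas tr)

private theorem HypC_rel (F : IntermediateField ℚ Om) [FiniteDimensional ℚ F]
    (W : Subgroup Gal(Om/ℚ)) : F.fixingSubgroup.relIndex W ≠ 0 := by
  have hidx : F.fixingSubgroup.index ≠ 0 := by
    rw [← IntermediateField.finrank_eq_fixingSubgroup_index]
    exact Module.finrank_pos.ne'
  intro h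
  exact hidx (by
    have h2 := Subgroup.index_eq_zero_of_relIndex_eq_zero h
    exact h2)

/-- An auxiliary ideal. -/
private theorem HypC_m (hO2 : S_O2) (hO6 : S_O6) (k t : ℕ) [Rmf k t] (f : ℕ) (hf : 0 < f) :
    ∃ m : Ideal (OO k t), m ≠ ⊥ ∧ m ≠ ⊤ ∧ PrI m 2 ∧ PrI m f := by
  obtain ⟨q, hq1, hq⟩ := Nat.exists_infinite_primes (2 * f + 1)
  obtain ⟨-, -, -, hNI, -, hNI0, -, -⟩ := hO2 k t
  have hNm : Nm ((q : ℕ) : OO k t) = (q : ℤ) ^ 2 := Nm_nat q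
  have hNIq : (NI (sp ((q : ℕ) : OO k t)) : ℤ) = (q : ℤ) ^ 2 := by rw [hNI, hNm]
  have hcop : ∀ N : ℕ, 0 < N → N ≤ 2 * f → PrI (sp ((q : ℕ) : OO k t)) N := by
    intro N hN hNf
    refine ((hO6 k t).2.2.2.1 N _ hN).2 ?_
    unfold Cop
    rw [hNm]
    have h1 : q.Coprime N := by
      refine (Nat.Prime.coprime_iff_not_dvd hq).2 fun h => ?_
      have := Nat.le_of_dvd hN h
      omega
    exact IsCoprime.pow_left (Nat.isCoprime_iff_coprime.2 h1)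
  refine ⟨sp ((q : ℕ) : OO k t), ?_, ?_, hcop 2 two_pos (by omega), hcop f hf (by omega)⟩
  · intro h
    have h1 := (hNI0 _).2 h
    rw [h1] at hNIq
    have h2 : (q : ℤ) ≠ 0 := by exact_mod_cast hq.ne_zero
    exact pow_ne_zero 2 h2 hNIq.symm
  · intro h
    have h1 : (NI (sp (1 : OO k t)) : ℤ) = 1 := by
      rw [hNI]
      exact Nm_one
    have h2 : sp (1 : OO k t) = ⊤ := Ideal.span_singleton_one
    rw [h, ← h2, h1] at hNIq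
    have h3 : (2 : ℤ) ≤ (q : ℤ) := by exact_mod_cast hq.two_le
    nlinarith

theorem pHypC : S_HypC := by
  classical
  intro hChi hLM hBInv hBNrm hRpT hAP haP hAThm hDS hANv hgEx hRpS hKap hTei hCg hAr2 hAr3
    hNiL hPs hGalI hKF1 hO1 hO2 hO6 hO7 hO9 hE1 hE6 hE7 hE8 hE9 hLay hGR hGM hG3 hH k t _
    hly hlu f hf h3 P hPp h2P χb hmul hone hnt hGO
  have hfpos : 0 < f := hf.pos
  have hf2 : 0 < 2 * f := Nat.mul_pos two_pos hfpos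
  have hnice : NiceI (2 * f) (H2 (n := k) (t := t) f) :=
    ((hAr3 hCg hO1 hO2 hO6 hO7 k t).1 f hf).2.2
  have hGal := hGalI hO7 hE1 hE8 hPs k t
  have hfdL : FiniteDimensional ℚ (Lf k t f) := (hGal (2 * f) (H2 f) hf2 (d15' h3) hnice).1
  have hlayL : ∀ n : ℕ, Layer 2 (Lf k t f) n (Ln k t f (n + 2)) := fun n =>
    hly f (H2 f) hf h3 hnice (fun _ h => h) n
  have hlayL' : ∀ (n : ℕ) (F : IntermediateField ℚ Om), Layer 2 (Lf k t f) n F →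
      F = Ln k t f (n + 2) := fun n F hF => hlu (Lf k t f) hfdL n F _ hF (hlayL n)
  obtain ⟨hnice1, hKQ⟩ := hKF1 hO1 hO6 hO7 hE1 hE8 hPs hGalI k t
  have hfdK : FiniteDimensional ℚ (KQ k t) := by
    have h1 := (hGal (2 * 15) (Gd (2 * 15)) (by norm_num) ⟨2, rfl⟩ hnice1).1
    rwa [hKQ] at h1
  have hlayKn : ∀ n : ℕ, Layer 2 (KQ k t) n (Kn k t n) := by
    intro n
    have h1 := hly 15 (Gd (2 * 15)) ⟨7, rfl⟩ dvd_rfl hnice1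
      (((hAr3 hCg hO1 hO2 hO6 hO7 k t).1 15 ⟨7, rfl⟩).2.2.cop) n
    rw [hKQ] at h1
    exact h1
  have hlayK : ∀ (n : ℕ) (E : IntermediateField ℚ Om), Layer 2 (KQ k t) n E → E = Kn k t n :=
    fun n E hE => hlu (KQ k t) hfdK n E _ hE (hlayKn n)
  have hniceK : ∀ n : ℕ, NiceI (15 * 2 ^ (n + 2))
      (fun a : Ideal (OO k t) => Gd (2 * 15) a ∧ Nm1 (n + 2) a) :=
    fun n => hNiL hO1 hO2 hO6 hO7 hO9 k t 15 _ (by norm_num) hnice1 n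
  obtain ⟨hLG, hLMn⟩ := hLM hCg hAr3 hNiL hPs hGalI hO1 hO2 hO6 hO7 hO9 hE1 hE8 hE9 hGM k t f hf
    h3
  have hLnLf : ∀ n : ℕ, (Ln k t f (n + 2)).fixingSubgroup ≤ (Lf k t f).fixingSubgroup :=
    fun n => (hLMn n).1
  have hMnLn : ∀ n : ℕ, (Mn k t f (n + 2)).fixingSubgroup ≤ (Ln k t f (n + 2)).fixingSubgroup :=
    fun n => (hLMn n).2.1
  have hLnG : ∀ n : ℕ, (Ln k t f (n + 2)).fixingSubgroup ≤ GK k t := fun n => (hLnLf n).trans hLG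
  have hMnG : ∀ n : ℕ, (Mn k t f (n + 2)).fixingSubgroup ≤ GK k t := fun n => (hMnLn n).trans (hLnG n)
  obtain ⟨χ, hχ, hχb, m0, hm0, hχm⟩ := hChi hTei hPs hGalI hAr3 hCg hO1 hO2 hO6 hO7 hE1 hE7 hE8
    k t f hf h3 P hPp h2P χb hmul hone
  obtain ⟨m, hmb, hmt, hm2, hmf⟩ := HypC_m hO2 hO6 k t f hfpos
  obtain ⟨N0, hN03, hGN⟩ := hGO χ hχ hχb m hmb hmt hm2 hmf
  obtain ⟨n0, rfl⟩ : ∃ n0, N0 = n0 + 2 := ⟨N0 - 2, by omega⟩
  have hn01 : 1 ≤ n0 := by omega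
  choose T hT using fun n : ℕ => (hGR k t f (n + 2) hf h3 (by omega)).1
  obtain ⟨hKnG, hMnKn, hDSR⟩ := hDS hCg hAr2 hAr3 hNiL hPs hGalI hKF1 hLM hO1 hO2 hO6 hO7
    hO9 hE1 hE7 hE8 hE9 hGM k t f n0 hf h3
  have hfdM : FiniteDimensional ℚ (Mn k t f (n0 + 2)) :=
    ((hGM k t f hf h3).2.2.2.2.1 (n0 + 2) (by omega)).1
  obtain ⟨R', hR'⟩ := (hRpS Gal(Om/ℚ) (Kn k t n0).fixingSubgroup (Mn k t f (n0 + 2)).fixingSubgroup
    (Mn k t f (n0 + 2)).fixingSubgroup hMnKn le_rfl).2.2 (HypC_rel _ _)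
  have hMpos : 0 < f * 2 ^ (n0 + 2) := by positivity
  have hexc : ∀ r : Gal(Om/ℚ), ∃ a : Ideal (OO k t), r ∈ R' → Psi r⁻¹ (f * 2 ^ (n0 + 2)) a := by
    intro r
    by_cases hr : r ∈ R'
    · obtain ⟨a, ha⟩ := (hE1 k t _ hMpos (d15 h3 _)).1 r⁻¹ ((GK k t).inv_mem (hKnG (hR'.mem r hr)))
      exact ⟨a, fun _ => ha⟩
    · exact ⟨⊤, fun h => absurd h hr⟩
  choose c hc using hexc
  obtain ⟨hinj, D, hDm, hDD⟩ := hDSR R' hR' c hc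
  obtain ⟨P', d, hAb', hdec, hfix, hfi, hnot⟩ := hGN (n0 + 2) le_rfl (T n0) (hT n0) D hDD
  have hGD : GDat k t f m P' d T := ⟨hf, h3, hmb, hm2, hmf, hAb', hdec, hfix, hfi, hT⟩
  have hb : ∀ n : ℕ, 1 ≤ n → ∀ σ ∈ GK k t, ∀ τ ∈ (Mn k t f (n + 2)).fixingSubgroup,
      bb f m d T n (σ * τ) = bb f m d T n σ :=
    fun n hn σ hσ => (hBInv hG3 hE1 hO6 k t f m P' d T hGD n hn σ hσ).1
  have hn := hBNrm hBInv hG3 hKap hGM hPs hAr2 hO1 hO2 hO6 hO7 hO9 hE1 hE7 k t f m P' d T hGD hMnG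
  have hA := hAP hRpS hRpT k t f m d T hb hn (fun n => ⟨hLnG n, (hLMn n).2.1, (hLMn n).2.2.1,
    (hLMn n).2.2.2.1, (hLMn n).2.2.2.2.1, (hLMn n).2.2.2.2.2.1⟩)
  have hstab : ∀ n : ℕ, ∀ σ ∈ GK k t, ∀ τ ∈ (Ln k t f (n + 2)).fixingSubgroup,
      σ * τ * σ⁻¹ ∈ (Ln k t f (n + 2)).fixingSubgroup := fun n => (hLMn n).2.2.2.2.2.2.1
  have hstabM : ∀ n : ℕ, ∀ σ ∈ GK k t, ∀ τ ∈ (Mn k t f (n + 2)).fixingSubgroup,
      σ * τ * σ⁻¹ ∈ (Mn k t f (n + 2)).fixingSubgroup := fun n => (hLMn n).2.2.2.2.2.2.2.1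
  have hcomM : ∀ n : ℕ, ∀ σ ∈ GK k t, ∀ τ ∈ GK k t,
      σ * τ * σ⁻¹ * τ⁻¹ ∈ (Mn k t f (n + 2)).fixingSubgroup := fun n => (hLMn n).2.2.2.2.2.2.2.2.1
  have hstabK : ∀ σ ∈ GK k t, ∀ τ ∈ (Kn k t n0).fixingSubgroup,
      σ * τ * σ⁻¹ ∈ (Kn k t n0).fixingSubgroup :=
    (hGal (15 * 2 ^ (n0 + 2)) _ (by positivity) (d15 dvd_rfl _) (hniceK n0)).2.2.2.2.2.2.2
  obtain ⟨g, hgK, hg1⟩ := hgEx hLay k t n0 hfdK (hlayKn n0) hstabK P χb hmul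
    (hone 1 (Subgroup.one_mem _)) ⟨m0, hm0, hχm⟩ hnt
  have hgG : g ∈ GK k t := hKnG hgK
  have ha := haP hRpT k t f m d T (fun n hn σ hσ => ⟨(hA n hn σ hσ).2.1, (hA n hn σ hσ).2.2⟩)
    (fun n => ⟨hLnG n, (hLMn n).2.2.2.1, hstab n⟩) g hgG
  have hLnKn : (Ln k t f (n0 + 2)).fixingSubgroup ≤ (Kn k t n0).fixingSubgroup := by
    apply IntermediateField.fixingSubgroup_le
    intro x hx τ hτ a hPsi hHa
    have hd : 15 * 2 ^ (n0 + 2) ∣ f * 2 ^ (n0 + 2) := mul_dvd_mul_right h3 _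
    exact hx τ hτ a ((hE1 k t _ hMpos (d15 h3 _)).2.2.2.2 τ _ a hPsi hd (d15 dvd_rfl _))
      ⟨⟨hPsi.ne, pri_dvd (psi_cop hPsi) ((mul_dvd_mul_left 2 h3).trans (d2f f n0))⟩, hHa.2⟩
  refine ⟨n0, aG f m d T g, ⟨?_, ?_, ?_, ?_⟩⟩
  · intro n hn F hF σ hσ τ hτ
    rw [hlayL' n F hF] at hτ
    exact (ha n (hn01.trans hn) σ hσ).1 τ hτ
  · intro n hn F F' hF hF' σ hσ R hR
    rw [hlayL' n F hF, hlayL' (n + 1) F' hF'] at hR
    exact (ha n (hn01.trans hn) σ hσ).2 R hR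
  · intro n hn F hF φ hφ τ hτ R hR
    rw [hlayL' n F hF] at hφ hτ hR
    exact hAThm hH hRpS hRpT k t f m P' d T hGD n (hn01.trans hn) (hLnG n) (hMnLn n)
      (hLMn n).2.2.1 (hstab n) (hstabM n) (hcomM n)
      (fun σ hσ => ⟨(hA n (hn01.trans hn) σ hσ).1, (hA n (hn01.trans hn) σ hσ).2.1⟩) g hgG φ hφ τ
      hτ R hR
  · intro E F hE hF R hR
    rw [hlayK n0 E hE, hlayL' n0 F hF] at hR
    exact hANv hRpS hRpT hBInv hG3 hE1 hO6 k t f m P P' d T hGD hPp h2P n0 hn01 hKnG hLnKn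
      (hLnLf n0) (hMnLn n0) (hLMn n0).2.2.1 (hstab n0)
      (fun σ hσ => ⟨(hA n0 hn01 σ hσ).1, (hA n0 hn01 σ hσ).2.1⟩) χb χ hmul hone
      hχb R' c D hR' (fun r hr => hc r hr) hinj hDm hnot g hgK hg1 R hR

end Pool.Agent.DR.PI
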