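import Pool.Agent.Lib.DR.PI.SpecC
import Pool.Agent.Lib.DN.PI.Cop
import Pool.Agent.Lib.DN.Base
import Pool.Agent.Lib.DI.B.A12

/-!
# THEOREM DR, Part I (helper55): an ideal of norm `± 3` modulo `8` in `H2 f`
-/

set_option autoImplicit false

open scoped Pointwise

namespace Pool.Agent.DR.PI

open Pool.Agent.MuZ Pool.Agent.DN
open Pool.Agent.DN.PI (Gd Nm1 NiceI LyI Kn rsys bb AA aG S_RpT S_ExP pri_dvd psi_cop ne_one' d15 d15' d2f)
open Pool.Agent.DI (io ofC io_inj exists_io io_ofC ofC_io VP MP UP TP ex sqr sqr_sq kap)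

/-- `√2` is not in `K`. -/
private theorem I3_sig (k t : ℕ) [hR : Rmf k t] (s : Om) (hs : s ^ 2 = 2) :
    ∃ σ ∈ GK k t, σ s ≠ s := by
  by_contra hcon
  push Not at hcon
  obtain ⟨c, hc⟩ := DI.tA1
  have ht : t = 0 := hR.zero
  subst ht
  -- `c` fixes `s`
  have hcs : c s = s := by
    have h1 : (c s) ^ 2 = s ^ 2 := by rw [← map_pow, hs, map_ofNat]
    rcases sq_eq_sq_iff_eq_or_eq_neg.1 h1 with h | h
    · exact h
    · exfalso
      have h2 := hc s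
      rw [h, map_neg] at h2
      have h3 : io s * (starRingEnd ℂ) (io s) = -2 := by
        rw [← h2, mul_neg, ← sq, ← map_pow, hs, map_ofNat]
      rw [Complex.mul_conj] at h3
      have h4 := congrArg Complex.re h3
      rw [Complex.ofReal_re] at h4
      have h5 := Complex.normSq_nonneg (io s)
      rw [h4] at h5
      norm_num at h5
  have hcw : c (wO k 0) = -wO k 0 := by
    apply io_inj
    rw [hc, io_wO, conj_wC, map_neg, io_wO]
    push_cast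
    ring
  have hall : ∀ g : Gal(Om/ℚ), g s = s := by
    intro g
    have hw2 : (wO k 0) ^ 2 = -(k : Om) := by
      rw [wO_sq]
      push_cast
      ring
    have h1 : (g (wO k 0)) ^ 2 = (wO k 0) ^ 2 := by
      rw [← map_pow, hw2, map_neg, map_natCast]
    rcases sq_eq_sq_iff_eq_or_eq_neg.1 h1 with h | h
    · exact hcon g (mem_GK_iff.2 h)
    · have h2 : c * g ∈ GK k 0 := by
        refine mem_GK_iff.2 ?_
        rw [AlgEquiv.mul_apply, h, map_neg, hcw, neg_neg]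
      have h3 := hcon _ h2
      rw [AlgEquiv.mul_apply] at h3
      exact c.injective (h3.trans hcs.symm)
  obtain ⟨q, hq⟩ := IntermediateField.mem_bot.1 ((InfiniteGalois.mem_bot_iff_fixed s).2 hall)
  have h6 : q ^ 2 = 2 := by
    have h7 : algebraMap ℚ Om (q ^ 2) = algebraMap ℚ Om 2 := by
      rw [map_pow, hq, hs, map_ofNat]
    exact (algebraMap ℚ Om).injective h7
  have h8 : (q : ℝ) ^ 2 = 2 := by exact_mod_cast h6
  apply irrational_sqrt_two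
  refine ⟨|q|, ?_⟩
  rw [← h8, Real.sqrt_sq_eq_abs, Rat.cast_abs]

theorem pI3 : S_I3 := by
  intro hCg hAr3 hO1 hO2 hO6 hO7 hO9 hE1 hE6 k t _ f N hf h15 hN
  obtain ⟨ζ, hζe⟩ : ∃ ζ, ζ = DI.zet 8 := ⟨_, rfl⟩
  have hζ := (DI.tA2 8 (by norm_num)).2
  rw [← hζe] at hζ
  have hζ0 : ζ ≠ 0 := hζ.ne_zero (by norm_num)
  have hζ8 : ζ ^ 8 = 1 := hζ.pow_eq_one
  have hζ4 : ζ ^ 4 = -1 := by
    have h1 : (ζ ^ 4 - 1) * (ζ ^ 4 + 1) = 0 := by linear_combination hζ8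
    rcases mul_eq_zero.1 h1 with h | h
    · exfalso
      have h2 := (hζ.pow_eq_one_iff_dvd 4).1 (sub_eq_zero.1 h)
      omega
    · exact eq_neg_of_add_eq_zero_left h
  have hs2 : (ζ + ζ ^ 7) ^ 2 = 2 := by
    have h1 : (ζ + ζ ^ 7) ^ 2 = ζ ^ 2 + 2 * ζ ^ 8 + ζ ^ 2 * (ζ ^ 4) ^ 3 := by ring
    rw [h1, hζ4, hζ8]
    ring
  obtain ⟨σ, hσ, hσs⟩ := I3_sig k t (ζ + ζ ^ 7) hs2
  have hM : 0 < f * 2 ^ (N + 3) := Nat.mul_pos hf.pos (by positivity)
  obtain ⟨a, ha⟩ := (hE1 k t _ hM (d15 h15 _)).1 σ hσ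
  have hσζ : σ ζ = ζ ^ NI a := by
    refine hE6 k t σ _ a hσ hM (d15 h15 _) ha ζ ?_
    have e : f * 2 ^ (N + 3) = 8 * (f * 2 ^ N) := by ring
    rw [e, pow_mul, hζ8, one_pow]
  obtain ⟨o1, o2, o3, o4, -⟩ := hO6 k t
  obtain ⟨-, -, -, nmI, nIm, nI0, -, -⟩ := hO2 k t
  have hpr : PrI a (f * 2 ^ (N + 3)) := psi_cop ha
  have hpr2 : PrI a (2 * f) := pri_dvd hpr ⟨2 ^ (N + 2), by ring⟩
  have hprN : PrI a (f * 2 ^ N) := pri_dvd hpr ⟨2 ^ 3, by ring⟩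
  have hcop : (NI a).Coprime 2 := (o3 2 a two_pos).1 (pri_dvd hpr2 ⟨f, rfl⟩)
  have hodd : NI a % 2 = 1 := by
    rw [Nat.coprime_comm, Nat.coprime_two_left] at hcop
    exact Nat.odd_iff.1 hcop
  -- the norm is not `± 1` modulo `8`
  have h38 : NI a % 8 = 3 ∨ NI a % 8 = 5 := by
    have h1 : NI a % 8 = 1 ∨ NI a % 8 = 3 ∨ NI a % 8 = 5 ∨ NI a % 8 = 7 := by omega
    have hdm := Nat.div_add_mod (NI a) 8
    rcases h1 with h | h | h | h
    · exfalso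
      apply hσs
      have h2 : ζ ^ NI a = ζ := by
        rw [← hdm, h, pow_add, pow_mul, hζ8, one_pow, one_mul, pow_one]
      rw [map_add, map_pow, hσζ, h2]
    · exact Or.inl h
    · exact Or.inr h
    · exfalso
      apply hσs
      have h2 : ζ ^ NI a = ζ ^ 7 := by
        rw [← hdm, h, pow_add, pow_mul, hζ8, one_pow, one_mul]
      have h3 : (ζ ^ 7) ^ 7 = ζ := by
        have h4 : (ζ ^ 7) ^ 7 = (ζ ^ 8) ^ 6 * ζ := by ring
        rw [h4, hζ8, one_pow, one_mul]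
      rw [map_add, map_pow, hσζ, h2, h3, add_comm]
  obtain ⟨m, hm, hH2⟩ := ((hAr3 hCg hO1 hO2 hO6 hO7 k t).1 f hf).1
  have hNI1 : NI (⊤ : Ideal (OO k t)) = 1 := by
    have h1 := nmI (1 : OO k t)
    rw [sp, Ideal.span_singleton_one, Nm_one] at h1
    exact_mod_cast h1
  have hpow : ∀ j : ℕ, NI (a ^ j) = NI a ^ j ∧ a ^ j ≠ ⊥ ∧ PrI (a ^ j) (f * 2 ^ N) := by
    have := hO1 k t
    intro j
    induction j with
    | zero =>
      rw [pow_zero, pow_zero, Ideal.one_eq_top]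
      exact ⟨hNI1, top_ne_bot, top_sup_eq _⟩
    | succ j ih =>
      obtain ⟨h1, h2, h3⟩ := ih
      refine ⟨?_, ?_, ?_⟩
      · rw [pow_succ, nIm, h1, pow_succ]
      · rw [pow_succ]
        exact mul_ne_zero h2 ha.ne
      · rw [pow_succ]
        exact (o1 _ _ _).2 ⟨h3, hprN⟩
  obtain ⟨h1, h2, h3⟩ := hpow m
  refine ⟨a ^ m, hH2 a ⟨ha.ne, hpr2⟩, ⟨h2, h3⟩, ?_⟩
  obtain ⟨j, rfl⟩ := hm
  rw [h1]
  have h4 : ((NI a : ℤ) ^ 2) % 8 = 1 := by
    rcases h38 with h | h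
    · have h5 : (NI a : ℤ) % 8 = 3 := by exact_mod_cast h
      rw [pow_two, Int.mul_emod, h5]
      norm_num
    · have h5 : (NI a : ℤ) % 8 = 5 := by exact_mod_cast h
      rw [pow_two, Int.mul_emod, h5]
      norm_num
  have h6 : ((NI a : ℤ) ^ 2) ^ j ≡ 1 [ZMOD 8] := by
    have h7 : (NI a : ℤ) ^ 2 ≡ 1 [ZMOD 8] := by
      change (NI a : ℤ) ^ 2 % 8 = 1 % 8
      rw [h4]
      norm_num
    have h8 := h7.pow j
    rwa [one_pow] at h8
  have h9 : (NI a : ℤ) ^ (2 * j + 1) ≡ NI a [ZMOD 8] := by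
    rw [pow_succ, pow_mul]
    have h10 := h6.mul_right (NI a : ℤ)
    rwa [one_mul] at h10
  have h11 : (8 : ℤ) ∣ (NI a : ℤ) - (NI a : ℤ) ^ (2 * j + 1) := h9.dvd
  push_cast
  rcases h38 with h | h
  · left
    omega
  · right
    omega

end Pool.Agent.DR.PI
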