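import Pool.Agent.Lib.DN.PI.Cop
import Pool.Agent.Lib.DR.PI.SpecC

/-!
# THEOREM DR, Part I, module KF1: the field `K` as `FixI`
-/

set_option autoImplicit false

open scoped Pointwise

namespace Pool.Agent.DR.PI

open Pool.Agent.MuZ Pool.Agent.DN
open Pool.Agent.DN.PI (Gd Nm1 NiceI LyI Kn rsys bb AA aG S_RpT S_ExP pri_dvd psi_cop ne_one' d15 d15' d2f)

theorem pKF1 : S_KF1 := by
  intro hO1 hO6 hO7 hE1 hE8 hPs hGalI k t _
  have := hO1 k t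
  have h30 : 0 < 2 * 15 := by norm_num
  have h15 : 15 ∣ 2 * 15 := ⟨2, rfl⟩
  have hn : NiceI (2 * 15) (Gd (k := k) (t := t) (2 * 15)) := by
    refine ⟨⟨top_ne_bot, top_sup_eq _⟩, fun a ha => ha, fun a a' ha hr => ?_, fun a a' ha ha' => ?_⟩
    · have h1 := (hO7 k t (2 * 15) h30).2.2.2.2.2.1 a a' hr
      exact ⟨h1.1.1 ha.1, h1.2.1 ha.2⟩
    · exact ⟨mul_ne_zero ha.1 ha'.1, ((hO6 k t).1 _ a a').2 ⟨ha.2, ha'.2⟩⟩
  refine ⟨hn, le_antisymm ?_ (hGalI hO7 hE1 hE8 hPs k t (2 * 15) _ h30 h15 hn).2.1⟩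
  intro x hx
  have h1 : x ∈ IntermediateField.fixedField (KQ k t).fixingSubgroup := by
    rw [IntermediateField.mem_fixedField_iff]
    intro τ hτ
    obtain ⟨a, ha⟩ := (hE1 k t (2 * 15) h30 h15).1 τ hτ
    exact hx τ hτ a ha ⟨ha.ne, psi_cop ha⟩
  rwa [InfiniteGalois.fixedField_fixingSubgroup] at h1

end Pool.Agent.DR.PI
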