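import Pool.Agent.Lib.DR.PI.SpecC
import Pool.Agent.Lib.DN.PI.Cop
import Pool.Agent.Lib.DN.Base
import Pool.Agent.Lib.DI.B.A12
import Pool.Agent.Lib.DT.PI.SpecC

/-!
# THEOREM DR, Part I (helper55): the maximal subfield of `Lf k t f` which is abelian over `ℚ`

`H0 f`: the classes `b conj(b)⁻¹ h`, `h ∈ H2 f`; `L0 k t f = FixI (2 f) (H0 f)`. `h0_nice`: `H0 f` is a group of classes;
`l0_ab`: `L0 k t f` is contained in a cyclotomic field (`Ab0`); `l0_ncj`: a character which is not trivial on `Gal(Om/L0)` is not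
invariant under complex conjugation.
-/

set_option autoImplicit false

open scoped Pointwise

noncomputable section

namespace Pool.Agent.DR.PI

open Pool.Agent.MuZ Pool.Agent.DN NumberField
open Pool.Agent.DN.PI (Gd Nm1 NiceI LyI Kn rsys bb AA aG S_RpT S_ExP pri_dvd psi_cop ne_one' d15 d15' d2f)
open Pool.Agent.DI (io ofC io_inj exists_io io_ofC ofC_io VP MP UP TP ex sqr sqr_sq kap)

/-- The classes `b conj(b)⁻¹ h`, `h` in `H2 f`. -/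
def H0 {k t : ℕ} (f : ℕ) (a : Ideal (OO k t)) : Prop :=
  Gd (2 * f) a ∧ ∃ b h : Ideal (OO k t), Gd (2 * f) b ∧ H2 f h ∧ Ray (2 * f) (a * cjI b) (b * h)

/-- The maximal subfield of `Lf k t f` which is abelian over `ℚ`. -/
def L0 (k t f : ℕ) : IntermediateField ℚ Om := FixI (2 * f) (H0 (k := k) (t := t) f)

variable {k t : ℕ}

theorem cj_top (hO3 : S_O3) [SqN k t] : cjI (⊤ : Ideal (OO k t)) = ⊤ := by
  have h := (hO3 k t).2.2.2.1 (1 : OO k t)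
  have h1 : sp (1 : OO k t) = ⊤ := Ideal.span_singleton_one
  have h2 : cjO (1 : OO k t) = 1 := by
    apply QuadraticAlgebra.ext
    · change (1 : OO k t).re + (t : ℤ) * (1 : OO k t).im = (1 : OO k t).re
      rw [QuadraticAlgebra.im_one]
      ring
    · change -(1 : OO k t).im = (1 : OO k t).im
      rw [QuadraticAlgebra.im_one]
      ring
  rwa [h2, h1] at h

theorem gd_top (N : ℕ) : Gd N (⊤ : Ideal (OO k t)) := ⟨top_ne_bot, top_sup_eq _⟩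

theorem h2_h0 (hO3 : S_O3) (hO7 : S_O7) [SqN k t] {f : ℕ} (hf : 0 < f)
    (hN : NiceI (2 * f) (H2 (n := k) (t := t) f)) {a : Ideal (OO k t)} (ha : H2 f a) : H0 f a := by
  obtain ⟨o1, -⟩ := hO7 k t (2 * f) (by omega)
  refine ⟨hN.cop a ha, ⊤, a, gd_top _, ha, ?_⟩
  rw [cj_top hO3, Ideal.mul_top, Ideal.top_mul]
  exact o1 _

theorem h0_nice (hO1 : S_O1) (hO3 : S_O3) (hO6 : S_O6) (hO7 : S_O7) [SqN k t] {f : ℕ} (hf : 0 < f)
    (hN : NiceI (2 * f) (H2 (n := k) (t := t) f)) : NiceI (2 * f) (H0 (k := k) (t := t) f) := by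
  have := hO1 k t
  obtain ⟨o1, o2, o3, o4, -, o6, -⟩ := hO7 k t (2 * f) (by omega)
  obtain ⟨p1, -⟩ := hO6 k t
  obtain ⟨-, c2, -⟩ := hO3 k t
  refine ⟨h2_h0 hO3 hO7 hf hN hN.top, fun a h => h.1, ?_, ?_⟩
  · rintro a a' ⟨ha, b, h, hb, hh, hr⟩ haa
    have h6 := o6 _ _ haa
    exact ⟨⟨h6.1.1 ha.1, h6.2.1 ha.2⟩, b, h, hb, hh, o3 _ _ _ (o4 _ _ _ _ (o2 _ _ haa) (o1 _)) hr⟩
  · rintro a a' ⟨ha, b, h, hb, hh, hr⟩ ⟨ha', b', h', hb', hh', hr'⟩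
    refine ⟨⟨mul_ne_zero ha.1 ha'.1, (p1 _ _ _).2 ⟨ha.2, ha'.2⟩⟩, b * b', h * h',
      ⟨mul_ne_zero hb.1 hb'.1, (p1 _ _ _).2 ⟨hb.2, hb'.2⟩⟩, hN.mul _ _ hh hh', ?_⟩
    have h1 := o4 _ _ _ _ hr hr'
    have e1 : a * cjI b * (a' * cjI b') = a * a' * cjI (b * b') := by
      rw [c2, mul_mul_mul_comm]
    have e2 : b * h * (b' * h') = b * b' * (h * h') := mul_mul_mul_comm _ _ _ _
    rwa [e1, e2] at h1

/-- If the norm class is trivial and an odd power is in `H2 f` then `a` is in `H0 f`. -/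
theorem h0_of (hO3 : S_O3) (hO7 : S_O7) [SqN k t] {f : ℕ} (hf : 0 < f)
    (hN : NiceI (2 * f) (H2 (n := k) (t := t) f)) (hN0 : NiceI (2 * f) (H0 (k := k) (t := t) f))
    (hinv : ∀ a : Ideal (OO k t), H0 f a → ∃ a', H0 f a' ∧ Ray (2 * f) (a * a') ⊤)
    {a : Ideal (OO k t)} (ha : Gd (2 * f) a) (hr : Ray (2 * f) (a * cjI a) ⊤)
    {m : ℕ} (hm : Odd m) (h2 : H2 f (a ^ m)) : H0 f a := by
  obtain ⟨o1, o2, o3, o4, -, o6, -⟩ := hO7 k t (2 * f) (by omega)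
  have hsq : H0 f (a * a) := by
    have h3 := o4 _ _ _ _ (o1 a) hr
    refine ⟨?_, a, ⊤, ha, hN.top, ?_⟩
    · have h4 : Ray (2 * f) (a * a * cjI a) (a * ⊤) := by rwa [← mul_assoc] at h3
      have h5 := o6 _ _ h4
      rw [Ideal.mul_top] at h5
      have h6 : a * a * cjI a ≠ ⊥ := h5.1.2 ha.1
      have h7 : PrI (a * a * cjI a) (2 * f) := h5.2.2 ha.2
      refine ⟨fun h => h6 (by rw [h, Ideal.bot_mul]), ?_⟩
      unfold PrI at h7 ⊢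
      rw [eq_top_iff, ← h7]
      exact sup_le_sup_right Ideal.mul_le_left _
    · rwa [← mul_assoc] at h3
  have hpow : ∀ j : ℕ, H0 f ((a * a) ^ j) := by
    intro j
    induction j with
    | zero =>
      rw [pow_zero, Ideal.one_eq_top]
      exact hN0.top
    | succ j ih =>
      rw [pow_succ]
      exact hN0.mul _ _ ih hsq
  obtain ⟨j, rfl⟩ := hm
  obtain ⟨x', hx', hxx⟩ := hinv _ (hpow j)
  have h8 : H0 f (a ^ (2 * j + 1) * x') := hN0.mul _ _ (h2_h0 hO3 hO7 hf hN h2) hx'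
  refine hN0.ray _ _ h8 ?_
  have e : a ^ (2 * j + 1) * x' = a * ((a * a) ^ j * x') := by
    rw [pow_succ, pow_mul, pow_two]
    ring
  rw [e]
  have h9 := o4 _ _ _ _ (o1 a) hxx
  rwa [Ideal.mul_top] at h9

/-- **`L0 k t f` is contained in a cyclotomic field.** -/
theorem l0_ab (hSqr : DT.PI.S_Sqr) (hO1 : S_O1) (hO2 : S_O2) (hO3 : S_O3) (hO6 : S_O6) (hO7 : S_O7)
    (hCg : S_Cg) (hAr3 : S_Ar3) (hPs : S_Ps) (hGalI : S_GalI) (hE1 : S_E1) (hE6 : S_E6) (hE8 : S_E8)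
    (k t : ℕ) [hR : Rmf k t] (f : ℕ) (hf : Odd f) (h15 : 15 ∣ f) : FW.Ab0 (L0 k t f) := by
  have hf2 : 0 < 2 * f := Nat.mul_pos two_pos hf.pos
  obtain ⟨⟨m, hm, hH2⟩, -, hN⟩ := (hAr3 hCg hO1 hO2 hO6 hO7 k t).1 f hf
  have hN0 := h0_nice hO1 hO3 hO6 hO7 hf.pos hN
  have hinv := (hAr3 hCg hO1 hO2 hO6 hO7 k t).2 (2 * f) _ hf2 hN0
  obtain ⟨-, -, -, g4, -⟩ := hGalI hO7 hE1 hE8 hPs k t (2 * f) _ hf2 (d15' h15) hN0
  obtain ⟨m1, g, hm1, hg, hσg⟩ := hSqr (-(k : ℤ))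
  refine ⟨m1 * (2 * f), Nat.mul_pos hm1 hf2, fun σ hσ => ?_⟩
  have hσ1 : ∀ z : Om, z ^ m1 = 1 → σ z = z := fun z hz =>
    hσ z (by rw [pow_mul, hz, one_pow])
  have hσ2 : ∀ z : Om, z ^ (2 * f) = 1 → σ z = z := fun z hz =>
    hσ z (by rw [mul_comm, pow_mul, hz, one_pow])
  have ht : t = 0 := hR.zero
  subst ht
  have hσK : σ ∈ GK k 0 := by
    refine mem_GK_iff.2 ?_
    have h1 := hσg σ hσ1
    have h2 : (wO k 0) ^ 2 = g ^ 2 := by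
      rw [wO_sq, hg]
      push_cast
      ring
    rcases sq_eq_sq_iff_eq_or_eq_neg.1 h2 with h | h
    · rw [h, h1]
    · rw [h, map_neg, h1]
  obtain ⟨a, ha⟩ := (hE1 k 0 _ hf2 (d15' h15)).1 σ hσK
  have hGa : Gd (2 * f) a := ⟨ha.ne, psi_cop ha⟩
  refine (g4 σ hσK a ha).2 (h0_of hO3 hO7 hf.pos hN hN0 hinv hGa ?_ hm (hH2 a hGa))
  -- the norm of `a` is `1` modulo `2 f`
  have hζ := (DI.tA2 (2 * f) hf2).2
  have h3 := hE6 k 0 σ _ a hσK hf2 (d15' h15) ha _ hζ.pow_eq_one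
  rw [hσ2 _ hζ.pow_eq_one] at h3
  have hζ0 : DI.zet (2 * f) ≠ 0 := hζ.ne_zero hf2.ne'
  have h4 : DI.zet (2 * f) ^ ((NI a : ℤ) - 1) = 1 := by
    rw [zpow_sub₀ hζ0, zpow_natCast, zpow_one, ← h3, div_self hζ0]
  obtain ⟨j, hj⟩ := (hζ.zpow_eq_one_iff_dvd _).1 h4
  have hna : a * cjI a = sp (NI a : OO k 0) := ((hO3 k 0).2.2.1 a).2.2
  rw [hna]
  have h1 : (⊤ : Ideal (OO k 0)) = sp 1 := Ideal.span_singleton_one.symm
  rw [h1]
  have hNI0 : (NI a : OO k 0) ≠ 0 := by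
    intro h
    have h5 := congrArg Nm h
    rw [Nm_nat, Nm_zero] at h5
    have h6 : NI a = 0 := by
      have h7 : (NI a : ℤ) = 0 := by
        rcases eq_or_ne ((NI a : ℤ)) 0 with h8 | h8
        · exact h8
        · exact absurd h5 (pow_ne_zero 2 h8)
      exact_mod_cast h7
    exact ha.ne (((hO2 k 0).2.2.2.2.2.1 a).1 h6)
  have hcop : Cop (NI a : OO k 0) (2 * f) := by
    unfold Cop
    rw [Nm_nat]
    have h5 : (NI a).Coprime (2 * f) := ((hO6 k 0).2.2.1 (2 * f) a hf2).1 hGa.2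
    exact IsCoprime.pow_left (Nat.isCoprime_iff_coprime.2 h5)
  refine ((hO7 k 0 (2 * f) hf2).2.2.2.2.2.2.2.1 _ _ hNI0 one_ne_zero hcop (cop_one _)).2
    ⟨1, Nm_one, (j : OO k 0), ?_⟩
  have h8 := congrArg (Int.cast : ℤ → OO k 0) hj
  push_cast at h8 ⊢
  rw [← h8]
  ring

/-- **A character which is not trivial on `Gal(Om/L0)` is not invariant under complex conjugation.** -/
theorem l0_ncj (hO1 : S_O1) (hO2 : S_O2) (hO3 : S_O3) (hO6 : S_O6) (hO7 : S_O7)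
    (hCg : S_Cg) (hAr3 : S_Ar3) (hPs : S_Ps) (hGalI : S_GalI) (hE1 : S_E1) (hE7 : S_E7) (hE8 : S_E8)
    (k t : ℕ) [Rmf k t] (f : ℕ) (hf : Odd f) (h15 : 15 ∣ f) (P : Ideal ZZ) (hP : P.IsPrime)
    (χb : Gal(Om/ℚ) → ZZ ⧸ P) (hL : ∀ σ ∈ (Lf k t f).fixingSubgroup, χb σ = 1)
    (hnt : ∃ σ ∈ (L0 k t f).fixingSubgroup, χb σ ≠ 1) (χ : Ideal (OO k t) → ZZ)
    (hχ : IsChi (2 * f) (fun a => (χ a : Om)))
    (hχb : ∀ σ ∈ GK k t, ∀ a : Ideal (OO k t), Psi σ⁻¹ (2 * f) a →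
        Ideal.Quotient.mk P (χ a) = χb σ) : Ncj (fun a => (χ a : Om)) := by
  by_contra hcon
  unfold Ncj at hcon
  push Not at hcon
  obtain ⟨σ, hσ, hσ1⟩ := hnt
  have hf2 : 0 < 2 * f := Nat.mul_pos two_pos hf.pos
  obtain ⟨-, -, hN⟩ := (hAr3 hCg hO1 hO2 hO6 hO7 k t).1 f hf
  have hN0 := h0_nice hO1 hO3 hO6 hO7 hf.pos hN
  obtain ⟨-, -, g3, g4, -⟩ := hGalI hO7 hE1 hE8 hPs k t (2 * f) _ hf2 (d15' h15) hN0
  obtain ⟨-, -, -, l4, -⟩ := hGalI hO7 hE1 hE8 hPs k t (2 * f) _ hf2 (d15' h15) hN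
  have hσK : σ ∈ GK k t := g3 hσ
  obtain ⟨a, ha⟩ := (hE1 k t _ hf2 (d15' h15)).1 σ⁻¹ (inv_mem hσK)
  have hH0 : H0 f a := (g4 σ⁻¹ (inv_mem hσK) a ha).1 (inv_mem hσ)
  obtain ⟨hGa, b, h, hb, hh, hr⟩ := hH0
  have hdom : IsDomain (ZZ ⧸ P) := Ideal.Quotient.isDomain P
  -- `χ h = 1` in the residue field
  have hχh : Ideal.Quotient.mk P (χ h) = 1 := by
    obtain ⟨τ, hτ, hτh⟩ := hE7 k t (2 * f) h hf2 (d15' h15) (hN.cop h hh).1 (hN.cop h hh).2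
    have h1 : τ ∈ (Lf k t f).fixingSubgroup := (l4 τ hτ h hτh).2 hh
    have h2 := hχb τ⁻¹ (inv_mem hτ) h (by rwa [inv_inv])
    rw [h2]
    exact hL _ (inv_mem h1)
  have hcb : Gd (2 * f) (cjI b) := by
    refine ⟨fun h0 => hb.1 ?_, ((hO3 k t).2.2.2.2.1 b (2 * f)).2 hb.2⟩
    have h1 := ((hO3 k t).2.2.1 b).1
    rw [h0] at h1
    rw [← h1]
    have h2 := ((hO3 k t).2.2.1 (⊥ : Ideal (OO k t))).2.1
    rw [((hO2 k t).2.2.2.2.2.1 _).2 rfl] at h2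
    exact ((hO2 k t).2.2.2.2.2.1 _).1 h2
  have hmul : ∀ x y : Ideal (OO k t), χ (x * y) = χ x * χ y := by
    intro x y
    have h1 := hχ.mul x y
    exact_mod_cast h1
  have := hO1 k t
  have p1 := (hO6 k t).1
  have h1 : χ (a * cjI b) = χ (b * h) := by
    have h2 := hχ.ray (a * cjI b) (b * h) (mul_ne_zero hGa.1 hcb.1)
      (mul_ne_zero hb.1 (hN.cop h hh).1) ((p1 _ _ _).2 ⟨hGa.2, hcb.2⟩)
      ((p1 _ _ _).2 ⟨hb.2, (hN.cop h hh).2⟩) hr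
    exact_mod_cast h2
  have h2 : χ (cjI b) = χ b := by
    have h3 := hcon b
    exact_mod_cast h3
  rw [hmul, hmul, h2] at h1
  have h3 := congrArg (Ideal.Quotient.mk P) h1
  rw [map_mul, map_mul, hχh, mul_one] at h3
  have h4 : Ideal.Quotient.mk P (χ b) ≠ 0 := by
    obtain ⟨m, hm, hm1⟩ := hχ.odd
    intro h5
    have h6 : χ b ^ m = 1 := by
      have h7 := hm1 b hb.1 hb.2
      exact_mod_cast h7
    have h8 := congrArg (Ideal.Quotient.mk P) h6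
    rw [map_pow, h5, map_one, zero_pow hm.pos.ne'] at h8
    exact zero_ne_one h8
  have h5 : Ideal.Quotient.mk P (χ a) = 1 := by
    have h6 : (Ideal.Quotient.mk P (χ a) - 1) * Ideal.Quotient.mk P (χ b) = 0 := by
      rw [sub_mul, one_mul, h3, sub_self]
    rcases mul_eq_zero.1 h6 with h7 | h7
    · exact sub_eq_zero.1 h7
    · exact absurd h7 h4
  rw [hχb σ hσK a ha] at h5
  exact hσ1 h5

end Pool.Agent.DR.PI
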