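import Pool.Agent.Lib.DN.PI.Cop
import Pool.Agent.Lib.DR.PI.SpecC

/-!
# THEOREM DR, part I, module LM (helper61): the fields `L_n` and `L'_n`
-/

set_option autoImplicit false

open scoped Pointwise nonZeroDivisors

noncomputable section

namespace Pool.Agent.DR.PI

open Pool.Agent.MuZ Pool.Agent.DN NumberField IsDedekindDomain
open Pool.Agent.DN.PI (Gd Nm1 NiceI LyI Kn rsys bb AA aG S_RpT S_ExP pri_dvd psi_cop ne_one' d15 d15' d2f)
open Pool.Agent.DI (io ofC io_inj exists_io io_ofC ofC_io VP MP UP TP ex sqr sqr_sq kap)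
open Pool.Agent.DI.PI (Reps HypI Meas tr)

private theorem LM_rel (F : IntermediateField ℚ Om) (hF : FiniteDimensional ℚ F)
    (W : Subgroup Gal(Om/ℚ)) : F.fixingSubgroup.relIndex W ≠ 0 := by
  have h1 : IsOpen (F.fixingSubgroup : Set Gal(Om/ℚ)) := IntermediateField.fixingSubgroup_isOpen F
  have h2 : Finite (Gal(Om/ℚ) ⧸ F.fixingSubgroup) := Subgroup.quotient_finite_of_isOpen _ h1
  have h3 : F.fixingSubgroup.FiniteIndex := Subgroup.finiteIndex_of_finite_quotient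
  have h4 : (F.fixingSubgroup.subgroupOf W).FiniteIndex := inferInstance
  exact h4.index_ne_zero

theorem pLM : S_LM := by
  intro hCg hAr3 hNiL hPs hGalI hO1 hO2 hO6 hO7 hO9 hE1 hE8 hE9 hGM k t _ f hf h3
  have hf0 : 0 < f := hf.pos
  have hN : NiceI (2 * f) (H2 (n := k) (t := t) f) := ((hAr3 hCg hO1 hO2 hO6 hO7 k t).1 f hf).2.2
  obtain ⟨-, g2, -, -, g5, -⟩ := hGM k t f hf h3
  obtain ⟨-, -, -, -, -, e8⟩ := hE9 k t f hf.pos h3
  have hpos : ∀ N : ℕ, 0 < f * 2 ^ N := fun N => Nat.mul_pos hf0 (pow_pos two_pos N)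
  have hNL : ∀ n : ℕ, NiceI (f * 2 ^ (n + 2)) (H2N (n := k) (t := t) f (n + 2)) := fun n =>
    hNiL hO1 hO2 hO6 hO7 hO9 k t f (H2 f) hf0 hN n
  have hNM : ∀ N : ℕ, 1 ≤ N → NiceI (f * 2 ^ N) (HPN (n := k) (t := t) f N) := fun N hN1 =>
    ⟨(g2 N hN1).1, (g2 N hN1).2.1, (g2 N hN1).2.2.1, (g2 N hN1).2.2.2.1⟩
  have hG := hGalI hO7 hE1 hE8 hPs k t
  have hLL : ∀ n : ℕ, Lf k t f ≤ Ln k t f (n + 2) := by
    intro n x hx τ hτ a h1 h2
    exact hx τ hτ a ((hE1 k t _ (hpos (n + 2)) (d15 h3 _)).2.2.2.2 τ (2 * f) a h1 (d2f f n)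
      (d15' h3)) h2.1
  have hLn : ∀ n : ℕ, Ln k t f n ≤ Ln k t f (n + 1) := by
    intro n x hx τ hτ a h1 h2
    have h4 : (2 : ℤ) ^ n ∣ 2 ^ (n + 1) := pow_dvd_pow 2 (Nat.le_succ n)
    refine hx τ hτ a ((hE1 k t _ (hpos (n + 1)) (d15 h3 _)).2.2.2.2 τ _ a h1
      (Nat.mul_dvd_mul_left f (pow_dvd_pow 2 (Nat.le_succ n))) (d15 h3 _)) ⟨h2.1, ?_⟩
    exact h2.2.imp (fun h => h4.trans h) (fun h => h4.trans h)
  refine ⟨(hG (2 * f) (H2 f) (Nat.mul_pos two_pos hf0) (d15' h3) hN).2.2.1, fun n => ?_⟩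
  obtain ⟨-, -, -, -, -, -, -, l8⟩ := hG _ _ (hpos (n + 2)) (d15 h3 _) (hNL n)
  obtain ⟨-, -, -, m4, -, -, m7, m8⟩ := hG _ _ (hpos (n + 2)) (d15 h3 _) (hNM (n + 2) (by omega))
  exact ⟨IntermediateField.fixingSubgroup_le (hLL n),
    IntermediateField.fixingSubgroup_le (e8 (n + 2) (by omega)), LM_rel _ (g5 (n + 2) (by omega)).1 _,
    IntermediateField.fixingSubgroup_le (hLn (n + 2)),
    IntermediateField.fixingSubgroup_le (g5 (n + 2) (by omega)).2.2, LM_rel _ (g5 (n + 1 + 2) (by omega)).1 _,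
    l8, m8, m7, m4⟩

end Pool.Agent.DR.PI
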