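import Pool.Agent.Lib.DN.PI.Cop
import Pool.Agent.Lib.DR.PI.SpecC
import Pool.Agent.Lib.DN.Base
import Pool.Agent.Lib.MuZ.AsmA

/-!
# THEOREM DR, Part I, module LyI: the layers of the cyclotomic `ℤ_2`-extension of `FixI (2 * f) H`
-/

set_option autoImplicit false

open scoped Pointwise

namespace Pool.Agent.DR.PI

open Pool.Agent.MuZ Pool.Agent.DN
open Pool.Agent.DN.PI (Gd Nm1 NiceI LyI Kn rsys bb AA aG S_RpT S_ExP pri_dvd psi_cop ne_one' d15 d15' d2f)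
open Pool.Agent.DI (io ofC io_inj exists_io io_ofC ofC_io VP MP UP TP ex sqr sqr_sq kap)

/-- the index of the subgroup generated by `-1` -/
private theorem LyI_index (n : ℕ) :
    (Subgroup.zpowers (-1 : (ZMod (2 ^ (n + 2)))ˣ)).index = 2 ^ n := by
  have hne : NeZero (2 ^ (n + 2)) := ⟨(pow_pos two_pos _).ne'⟩
  have hlt : Fact (2 < 2 ^ (n + 2)) := ⟨by
    rw [pow_add]
    have := Nat.one_le_two_pow (n := n)
    omega⟩
  have hne1 : (-1 : (ZMod (2 ^ (n + 2)))ˣ) ≠ 1 := by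
    intro h
    have h1 := congrArg (Units.val) h
    rw [Units.val_neg, Units.val_one] at h1
    exact ZMod.neg_one_ne_one h1
  have hord : orderOf (-1 : (ZMod (2 ^ (n + 2)))ˣ) = 2 :=
    orderOf_eq_prime (by rw [sq, neg_mul_neg, one_mul]) hne1
  have h1 := Subgroup.index_mul_card (Subgroup.zpowers (-1 : (ZMod (2 ^ (n + 2)))ˣ))
  rw [Nat.card_zpowers, hord, Nat.card_eq_fintype_card, ZMod.card_units_eq_totient,
    Nat.totient_prime_pow_succ Nat.prime_two] at h1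
  have h2 : 2 ^ (n + 1) * (2 - 1) = 2 ^ n * 2 := by rw [Nat.succ_sub_one, mul_one, pow_succ]
  exact Nat.eq_of_mul_eq_mul_right two_pos (h1.trans h2)

private theorem LyI_mem {R : Type} [CommRing R] (u : Rˣ) :
    u ∈ Subgroup.zpowers (-1 : Rˣ) ↔ u = 1 ∨ u = -1 := by
  constructor
  · rintro ⟨k, rfl⟩
    have h2 : (-1 : Rˣ) ^ (2 : ℤ) = 1 := by
      rw [zpow_ofNat, sq, neg_mul_neg, one_mul]
    rcases Int.even_or_odd' k with ⟨j, rfl | rfl⟩
    · left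
      change (-1 : Rˣ) ^ (2 * j) = 1
      rw [zpow_mul, h2, one_zpow]
    · right
      change (-1 : Rˣ) ^ (2 * j + 1) = -1
      rw [zpow_add, zpow_mul, h2, one_zpow, one_mul, zpow_one]
  · rintro (rfl | rfl)
    · exact Subgroup.one_mem _
    · exact Subgroup.mem_zpowers _

private theorem LyI_one (k t : ℕ) : Nm (1 : OO k t) = 1 := Nm_one

theorem pLyI : S_LyI := by
  intro hNoC hTFix hGalI hNiL hPs hAr2 hI3 hCg hAr3 hO1 hO2 hO6 hO7 hO9 hE1 hE6 hE7 hE8 hLay k t _ f H hf h15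
    hH hH2 n
  have hf0 : 0 < f := hf.pos
  have hf2 : 0 < 2 * f := by positivity
  have h2N : 0 < 2 ^ (n + 2) := pow_pos two_pos _
  have hM : 0 < f * 2 ^ (n + 2) := Nat.mul_pos hf0 h2N
  have hno := hNoC hTFix hO6 hO9 hE1 hE6 k t
  have hNice := hNiL hO1 hO2 hO6 hO7 hO9 k t f H hf0 hH n
  obtain ⟨Lfin, -, LGK, Lmem, -, -, -, -⟩ := hGalI hO7 hE1 hE8 hPs k t (2 * f) H hf2 (d15' h15) hH
  obtain ⟨Ffin, -, FGK, Fmem, -, -, -, -⟩ := hGalI hO7 hE1 hE8 hPs k t _ _ hM (d15 h15 _) hNice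
  obtain ⟨-, hPs1, -, -, -⟩ := hPs hO7 hE1 k t _ hM (d15 h15 _)
  obtain ⟨ps1, -, -, -, -⟩ := hPs hO7 hE1 k t _ hM (d15 h15 _)
  obtain ⟨e1, e2, e3, e4, e5⟩ := hE1 k t _ hM (d15 h15 _)
  obtain ⟨-, nm0, nmz, nmI, nIm, nI0, -, -⟩ := hO2 k t
  obtain ⟨o1, o2, o3, o4, -⟩ := hO6 k t
  change (LyI f n H).fixingSubgroup ≤ GK k t at FGK
  change FiniteDimensional ℚ (LyI f n H) at Ffin
  have hNI1 : NI (⊤ : Ideal (OO k t)) = 1 := by
    have h1 := nmI (1 : OO k t)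
    rw [sp, Ideal.span_singleton_one] at h1
    rw [LyI_one] at h1
    exact_mod_cast h1
  have down : ∀ (τ : Gal(Om/ℚ)) (a : Ideal (OO k t)), Psi τ (f * 2 ^ (n + 2)) a → Psi τ (2 * f) a :=
    fun τ a h => e5 τ (2 * f) a h (d2f f n) (d15' h15)
  have hFL : (LyI f n H).fixingSubgroup ≤ (FixI (2 * f) H).fixingSubgroup := by
    intro τ hτ
    obtain ⟨a, ha⟩ := e1 τ (FGK hτ)
    have hHa := (Fmem τ (FGK hτ) a ha).1 hτ
    exact (Lmem τ (FGK hτ) a (down τ a ha)).2 hHa.1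
  -- the second part of `S_Lay`
  obtain ⟨-, hlay⟩ := hLay 2 (FixI (2 * f) H) Lfin
  -- the norm
  have key : ∀ (τ : Gal(Om/ℚ)) (a a' : Ideal (OO k t)), Psi τ (f * 2 ^ (n + 2)) a →
      Psi τ (f * 2 ^ (n + 2)) a' →
      ((NI a : ℤ) : ZMod (2 ^ (n + 2))) = ((NI a' : ℤ) : ZMod (2 ^ (n + 2))) := by
    intro τ a a' h h'
    have h1 := hO9 k t _ hM a a' (psi_cop h) (psi_cop h') (e2 τ a a' h h')
    have h2 : ((2 ^ (n + 2) : ℕ) : ℤ) ∣ (NI a : ℤ) - NI a' := by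
      refine dvd_trans ?_ h1
      exact_mod_cast Dvd.intro_left f rfl
    exact ((ZMod.intCast_eq_intCast_iff_dvd_sub _ _ _).2 h2).symm
  have hex : ∀ τ : (FixI (2 * f) H).fixingSubgroup, ∃ a : Ideal (OO k t),
      Psi (τ : Gal(Om/ℚ)) (f * 2 ^ (n + 2)) a := fun τ => e1 τ (LGK τ.2)
  choose α hα using hex
  let φ0 : (FixI (2 * f) H).fixingSubgroup →* ZMod (2 ^ (n + 2)) :=
    { toFun := fun τ => ((NI (α τ) : ℤ) : ZMod (2 ^ (n + 2)))
      map_one' := by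
        have h1 : Psi ((1 : (FixI (2 * f) H).fixingSubgroup) : Gal(Om/ℚ)) (f * 2 ^ (n + 2))
            (⊤ : Ideal (OO k t)) := ps1
        rw [key _ _ _ (hα 1) h1, hNI1]
        norm_num
      map_mul' := by
        intro τ σ
        have h1 : Psi ((τ * σ : (FixI (2 * f) H).fixingSubgroup) : Gal(Om/ℚ)) (f * 2 ^ (n + 2))
            (α τ * α σ) := e4 _ _ _ _ (hα τ) (hα σ)
        rw [key _ _ _ (hα (τ * σ)) h1, nIm]
        push_cast
        rfl }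
  let φ : (FixI (2 * f) H).fixingSubgroup →* (ZMod (2 ^ (n + 2)))ˣ := φ0.toHomUnits
  have hφ : ∀ τ, ((φ τ : (ZMod (2 ^ (n + 2)))ˣ) : ZMod (2 ^ (n + 2))) =
      ((NI (α τ) : ℤ) : ZMod (2 ^ (n + 2))) := fun τ => rfl
  -- the value of `φ` for a given ideal
  have hvI : ∀ b : Ideal (OO k t), H b → b ≠ ⊥ → PrI b (f * 2 ^ (n + 2)) → ∃ τ,
      ((φ τ : (ZMod (2 ^ (n + 2)))ˣ) : ZMod (2 ^ (n + 2))) = ((NI b : ℤ) : ZMod (2 ^ (n + 2))) := by
    intro b hHb hb hpb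
    obtain ⟨τ, hτ, hτ'⟩ := hE7 k t _ b hM (d15 h15 _) hb hpb
    have hτL : τ ∈ (FixI (2 * f) H).fixingSubgroup := (Lmem τ hτ b (down τ _ hτ')).2 hHb
    exact ⟨⟨τ, hτL⟩, by rw [hφ, key _ _ _ (hα ⟨τ, hτL⟩) hτ']⟩
  have hval : ∀ c : ℤ, (8 : ℤ) ∣ c - 1 → ∃ τ, ((φ τ : (ZMod (2 ^ (n + 2)))ˣ) :
      ZMod (2 ^ (n + 2))) = (c : ZMod (2 ^ (n + 2))) := by
    intro c hc
    obtain ⟨v, hv1, hv2⟩ := (hAr2 k t).2 f (n + 2) c hf hc
    have hNv : Odd (Nm v) := by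
      have h1 : (2 : ℤ) ∣ Nm v - c := dvd_trans (dvd_pow_self 2 (by omega)) hv2
      obtain ⟨m, hm⟩ := hc
      obtain ⟨m', hm'⟩ := h1
      exact ⟨4 * m + m', by linarith⟩
    have hv0 : v ≠ 0 := by
      intro h
      rw [h] at hNv
      have h1 : Nm (0 : OO k t) = 0 := (nmz 0).2 rfl
      rw [h1] at hNv
      exact absurd hNv (by decide)
    have hcf : PrI (sp v) (2 * f) := by
      change sp v ⊔ Ideal.span {((2 * f : ℕ) : OO k t)} = ⊤
      rw [Ideal.eq_top_iff_one]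
      obtain ⟨w, hw⟩ := hv1
      have h1 : (1 : OO k t) = v + -(((2 * f : ℕ) : OO k t) * w) := by rw [← hw]; ring
      rw [h1]
      exact Submodule.add_mem_sup (Ideal.mem_span_singleton_self v)
        (neg_mem (Ideal.mul_mem_right w _ (Ideal.mem_span_singleton_self _)))
    have hcv2 : Cop v (2 * f) := (o4 (2 * f) v hf2).1 hcf
    have hcvf : Cop v f := cop_dvd hcv2 (dvd_mul_left f 2)
    have hcv : Cop v (f * 2 ^ (n + 2)) := by
      change IsCoprime (Nm v) ((f * 2 ^ (n + 2) : ℕ) : ℤ)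
      push_cast
      refine IsCoprime.mul_right hcvf ?_
      exact IsCoprime.pow_right (Int.isCoprime_iff_gcd_eq_one.2 (by
        rw [Int.gcd_comm]
        exact Int.isCoprime_iff_gcd_eq_one.1 ((Int.prime_two.coprime_iff_not_dvd).2 (by
          intro h
          obtain ⟨m, hm⟩ := hNv
          omega))))
    have hpv : PrI (sp v) (f * 2 ^ (n + 2)) := (o4 _ v hM).2 hcv
    have hsv : (sp v : Ideal (OO k t)) ≠ ⊥ := by
      intro h
      exact hv0 (Ideal.span_singleton_eq_bot.1 h)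
    have hray : Ray (2 * f) (⊤ : Ideal (OO k t)) (sp v) := by
      refine ⟨v, 1, hv0, one_ne_zero, hcv2, ?_, hv1, ?_⟩
      · change IsCoprime (Nm (1 : OO k t)) ((2 * f : ℕ) : ℤ)
        rw [LyI_one]
        exact isCoprime_one_left
      · rw [Ideal.mul_top]
        change sp v = Ideal.span {(1 : OO k t)} * sp v
        rw [Ideal.span_singleton_one, Ideal.top_mul]
    have hHv : H (sp v) := hH.ray _ _ hH.top hray
    obtain ⟨τ, hτ⟩ := hvI (sp v) hHv hsv hpv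
    refine ⟨τ, ?_⟩
    rw [hτ, nmI]
    have h3 : ((2 ^ (n + 2) : ℕ) : ℤ) ∣ Nm v - c := by
      push_cast
      exact hv2
    exact ((ZMod.intCast_eq_intCast_iff_dvd_sub _ _ _).2 h3).symm
  -- the norm `± 3` modulo `8`
  obtain ⟨a0, hHa0, ⟨ha0, hpa0⟩, hn0⟩ := hI3 hCg hAr3 hO1 hO2 hO6 hO7 hO9 hE1 hE6 k t f (n + 2) hf h15
    (by omega)
  obtain ⟨τ0, hτ0⟩ := hvI a0 (hH2 a0 hHa0) ha0 hpa0
  have hodd : ∀ c : ℤ, Odd c → ∃ τ, ((φ τ : (ZMod (2 ^ (n + 2)))ˣ) :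
      ZMod (2 ^ (n + 2))) = (c : ZMod (2 ^ (n + 2))) ∨ ((φ τ : (ZMod (2 ^ (n + 2)))ˣ) :
      ZMod (2 ^ (n + 2))) = -(c : ZMod (2 ^ (n + 2))) := by
    have h1 : ∀ c : ℤ, ((8 : ℤ) ∣ c - 1 ∨ (8 : ℤ) ∣ c + 1) → ∃ τ, ((φ τ : (ZMod (2 ^ (n + 2)))ˣ) :
        ZMod (2 ^ (n + 2))) = (c : ZMod (2 ^ (n + 2))) ∨ ((φ τ : (ZMod (2 ^ (n + 2)))ˣ) :
        ZMod (2 ^ (n + 2))) = -(c : ZMod (2 ^ (n + 2))) := by
      intro c hc
      rcases hc with hc | hc
      · obtain ⟨τ, hτ⟩ := hval c hc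
        exact ⟨τ, Or.inl hτ⟩
      · obtain ⟨τ, hτ⟩ := hval (-c) (by omega)
        refine ⟨τ, Or.inr ?_⟩
        rw [hτ, Int.cast_neg]
    intro c hc
    by_cases h8 : (8 : ℤ) ∣ c - 1 ∨ (8 : ℤ) ∣ c + 1
    · exact h1 c h8
    · -- an inverse of the norm of `a0`
      have hb0 : IsCoprime ((NI a0 : ℕ) : ℤ) ((8 * 2 ^ (n + 2) : ℤ)) := by
        have h3 : (NI a0).Coprime 2 := (o3 2 a0 two_pos).1 (pri_dvd hpa0 ⟨f * 2 ^ (n + 1), by ring⟩)
        have h4 : (NI a0).Coprime (2 ^ (n + 2 + 3)) := Nat.Coprime.pow_right _ h3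
        have h5 := Nat.isCoprime_iff_coprime.2 h4
        have h6 : ((2 ^ (n + 2 + 3) : ℕ) : ℤ) = 8 * 2 ^ (n + 2) := by
          push_cast
          ring
        rwa [h6] at h5
      obtain ⟨e, g, heg⟩ := hb0
      have h9 : (8 : ℤ) ∣ c * e - 1 ∨ (8 : ℤ) ∣ c * e + 1 := by
        have h10 : (e * (NI a0 : ℤ)) % 8 = 1 := by
          have h11 : e * (NI a0 : ℤ) = 1 - 8 * (g * 2 ^ (n + 2)) := by linear_combination heg
          rw [h11]
          omega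
        have h12 : (NI a0 : ℤ) % 8 = 3 ∨ (NI a0 : ℤ) % 8 = 5 := by omega
        have h13 : c % 8 = 3 ∨ c % 8 = 5 := by
          obtain ⟨j, hj⟩ := hc
          omega
        have h14 : e % 8 = 3 ∨ e % 8 = 5 := by
          rw [Int.mul_emod] at h10
          have h15 : 0 ≤ e % 8 := Int.emod_nonneg _ (by norm_num)
          have h16 : e % 8 < 8 := Int.emod_lt_of_pos _ (by norm_num)
          rcases h12 with h | h <;> rw [h] at h10 <;> omega
        have h17 : (c * e) % 8 = 1 ∨ (c * e) % 8 = 7 := by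
          rw [Int.mul_emod]
          rcases h13 with h | h <;> rcases h14 with h' | h' <;> rw [h, h'] <;> norm_num
        omega
      obtain ⟨τ1, hτ1⟩ := h1 (c * e) h9
      have h20 : ((e : ℤ) : ZMod (2 ^ (n + 2))) * ((NI a0 : ℤ) : ZMod (2 ^ (n + 2))) = 1 := by
        have h21 : ((e * (NI a0 : ℤ) : ℤ) : ZMod (2 ^ (n + 2))) = ((1 : ℤ) : ZMod (2 ^ (n + 2))) := by
          symm
          refine (ZMod.intCast_eq_intCast_iff_dvd_sub _ _ _).2 ⟨-(8 * g), ?_⟩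
          push_cast
          linear_combination heg
        push_cast at h21 ⊢
        exact h21
      refine ⟨τ1 * τ0, ?_⟩
      rw [map_mul, Units.val_mul, hτ0]
      rcases hτ1 with h | h
      · left
        rw [h, Int.cast_mul, mul_assoc, h20, mul_one]
      · right
        rw [h, Int.cast_mul, neg_mul, mul_assoc, h20, mul_one]
  let ψ : (FixI (2 * f) H).fixingSubgroup →*
      (ZMod (2 ^ (n + 2)))ˣ ⧸ (Subgroup.zpowers (-1 : (ZMod (2 ^ (n + 2)))ˣ)) :=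
    (QuotientGroup.mk' (Subgroup.zpowers (-1 : (ZMod (2 ^ (n + 2)))ˣ))).comp φ
  have hsurj : Function.Surjective ψ := by
    intro x
    obtain ⟨u, rfl⟩ := QuotientGroup.mk_surjective x
    have hne : NeZero (2 ^ (n + 2)) := ⟨h2N.ne'⟩
    have hcop := ZMod.val_coe_unit_coprime u
    have hod : Odd (u : ZMod (2 ^ (n + 2))).val := by
      rw [Nat.coprime_pow_right_iff (by omega), Nat.coprime_comm, Nat.coprime_two_left] at hcop
      exact hcop
    have hu : (((u : ZMod (2 ^ (n + 2))).val : ℤ) : ZMod (2 ^ (n + 2))) = u := by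
      rw [Int.cast_natCast, ZMod.natCast_zmod_val]
    obtain ⟨τ, hτ⟩ := hodd ((u : ZMod (2 ^ (n + 2))).val : ℤ) (by exact_mod_cast hod)
    refine ⟨τ, ?_⟩
    change (QuotientGroup.mk (φ τ) : _ ⧸ (Subgroup.zpowers (-1 : (ZMod (2 ^ (n + 2)))ˣ))) =
      QuotientGroup.mk u
    rcases hτ with h | h
    · congr 1
      apply Units.ext
      rw [h, hu]
    · rw [QuotientGroup.eq, LyI_mem]
      right
      have h1 : φ τ = -u := by
        apply Units.ext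
        rw [h, hu, Units.val_neg]
      rw [h1, inv_neg, neg_mul, inv_mul_cancel]
  -- `Y` as a preimage
  have hY : (LyI f n H).fixingSubgroup.subgroupOf (FixI (2 * f) H).fixingSubgroup =
      (⊥ : Subgroup ((ZMod (2 ^ (n + 2)))ˣ ⧸
        (Subgroup.zpowers (-1 : (ZMod (2 ^ (n + 2)))ˣ)))).comap ψ := by
    ext τ
    rw [Subgroup.mem_subgroupOf, Subgroup.mem_comap, Subgroup.mem_bot]
    have h0 : ψ τ = 1 ↔ φ τ = 1 ∨ φ τ = -1 := by
      rw [← LyI_mem]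
      exact QuotientGroup.eq_one_iff (φ τ)
    rw [h0]
    have h1 : ((τ : Gal(Om/ℚ)) ∈ (LyI f n H).fixingSubgroup ↔ _) :=
      Fmem τ (LGK τ.2) (α τ) (hα τ)
    have h2 : H (α τ) := (Lmem τ (LGK τ.2) (α τ) (down _ _ (hα τ))).1 τ.2
    rw [h1, Units.ext_iff, Units.ext_iff, hφ, Units.val_neg, Units.val_one]
    have h3 : ((2 : ℤ) ^ (n + 2) ∣ (NI (α τ) : ℤ) - 1) ↔
        ((NI (α τ) : ℤ) : ZMod (2 ^ (n + 2))) = 1 := by
      have h4 := ZMod.intCast_eq_intCast_iff_dvd_sub 1 (NI (α τ) : ℤ) (2 ^ (n + 2))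
      rw [← Nat.cast_two, ← Nat.cast_pow, ← h4, Int.cast_one, eq_comm]
    have h5 : ((2 : ℤ) ^ (n + 2) ∣ (NI (α τ) : ℤ) + 1) ↔
        ((NI (α τ) : ℤ) : ZMod (2 ^ (n + 2))) = -1 := by
      have h4 := ZMod.intCast_eq_intCast_iff_dvd_sub (-1) (NI (α τ) : ℤ) (2 ^ (n + 2))
      rw [sub_neg_eq_add] at h4
      rw [← Nat.cast_two, ← Nat.cast_pow, ← h4, Int.cast_neg, Int.cast_one, eq_comm]
    change H (α τ) ∧ ((2 : ℤ) ^ (n + 2) ∣ (NI (α τ) : ℤ) - 1 ∨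
      (2 : ℤ) ^ (n + 2) ∣ (NI (α τ) : ℤ) + 1) ↔ _
    rw [h3, h5]
    exact ⟨fun h => h.2, fun h => ⟨h2, h⟩⟩
  obtain ⟨F', hF', hF'2⟩ := hlay n
    ((LyI f n H).fixingSubgroup.subgroupOf (FixI (2 * f) H).fixingSubgroup)
    ((IntermediateField.fixingSubgroup_isOpen (LyI f n H)).preimage continuous_subtype_val)
    (by
      intro τ hτ
      rw [Subgroup.mem_subgroupOf, fix_cyc] at hτ
      obtain ⟨h1, h2⟩ := hτ
      have h3 := hno τ (LGK h1) h2 f (n + 2) (α τ) hf0 h15 (hα τ)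
      have h4 : H (α τ) := (Lmem τ (LGK τ.2) (α τ) (down _ _ (hα τ))).1 τ.2
      exact (Fmem τ (LGK τ.2) (α τ) (hα τ)).2 ⟨h4, h3⟩)
    (by
      rw [hY, Subgroup.index_comap_of_surjective _ hsurj, Subgroup.index_bot]
      exact LyI_index n)
  have hLF' : F'.fixingSubgroup ≤ (FixI (2 * f) H).fixingSubgroup :=
    IntermediateField.fixingSubgroup_le hF'.1
  have heq : F'.fixingSubgroup = (LyI f n H).fixingSubgroup := by
    rw [← Subgroup.map_subgroupOf_eq_of_le hLF', hF'2, Subgroup.map_subgroupOf_eq_of_le hFL]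
  have heq2 : F' = LyI f n H := by
    rw [← InfiniteGalois.fixedField_fixingSubgroup F', heq,
      InfiniteGalois.fixedField_fixingSubgroup]
  rw [← heq2]
  exact hF'

end Pool.Agent.DR.PI
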