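import Pool.Agent.Lib.DR.PI.SpecD
import Pool.Agent.Lib.DN.PI.Cop
import Pool.Agent.Lib.DR.PI.SpecC

/-!
# THEOREM DR, Part I, module MN1: the ray class field
-/

set_option autoImplicit false

open scoped Pointwise

namespace Pool.Agent.DR.PI

open Pool.Agent.MuZ Pool.Agent.DN
open Pool.Agent.DS.PI (RCF)
open Pool.Agent.DN.PI (Gd Nm1 NiceI LyI Kn rsys bb AA aG S_RpT S_ExP pri_dvd psi_cop ne_one' d15 d15' d2f)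

private theorem MN1_nice {k t : ℕ} [Rmf k t] (hO7 : S_O7) (M : ℕ) (hM : 0 < M) :
    NiceI M (fun a : Ideal (OO k t) => Ray M a ⊤) := by
  obtain ⟨o1, o2, o3, o4, -, o6, -⟩ := hO7 k t M hM
  have htop : PrI (⊤ : Ideal (OO k t)) M := top_sup_eq _
  refine ⟨o1 ⊤, fun a ha => ⟨(o6 a ⊤ ha).1.2 top_ne_bot, (o6 a ⊤ ha).2.2 htop⟩,
    fun a a' ha haa' => o3 _ _ _ (o2 _ _ haa') ha, fun a a' ha ha' => ?_⟩
  have h := o4 _ _ _ _ ha ha'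
  rwa [Ideal.mul_top] at h

theorem pMN1 : S_MN1 := by
  intro hCg hAr3 hPs hGalI hO1 hO2 hO6 hO7 hE1 hE8 k t _ f N hf h3 hN1
  have hf0 : 0 < f := hf.pos
  have hM : 0 < f * 2 ^ N := Nat.mul_pos hf0 (pow_pos (by norm_num) N)
  have hf2 : 0 < 2 * f := Nat.mul_pos two_pos hf0
  have hdvd : 2 * f ∣ f * 2 ^ N := by
    obtain ⟨j, rfl⟩ : ∃ j, N = j + 1 := ⟨N - 1, by omega⟩
    exact ⟨2 ^ j, by ring⟩
  have hH := MN1_nice (k := k) (t := t) hO7 (f * 2 ^ N) hM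
  obtain ⟨hA1, -⟩ := hAr3 hCg hO1 hO2 hO6 hO7 k t
  obtain ⟨-, hA2, hL⟩ := hA1 f hf
  obtain ⟨-, -, -, -, -, -, o7, -⟩ := hO7 k t (f * 2 ^ N) hM
  obtain ⟨e1, -, -, -, e5⟩ := hE1 k t (f * 2 ^ N) hM (d15 h3 _)
  obtain ⟨g1, -, -, g4, -, g6, -⟩ := hGalI hO7 hE1 hE8 hPs k t (f * 2 ^ N) _ hM (d15 h3 _) hH
  obtain ⟨-, l2, l3, l4, -⟩ := hGalI hO7 hE1 hE8 hPs k t (2 * f) _ hf2 (d15' h3) hL
  obtain ⟨-, -, p3, -⟩ := hPs hO7 hE1 k t (f * 2 ^ N) hM (d15 h3 _)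
  refine ⟨g1, g6, l2, ?_, ?_⟩
  · intro x hx τ hτ a ha hr
    exact hx τ hτ a (e5 τ (2 * f) a ha hdvd (d15' h3)) ⟨0, by rw [pow_zero, pow_one]; exact o7 (2 * f) a ⊤ hdvd hr⟩
  · obtain ⟨e, he⟩ := hA2 N
    refine ⟨e, fun σ hσ => ?_⟩
    have hσK : σ ∈ GK k t := l3 hσ
    obtain ⟨b, hb⟩ := e1 σ hσK
    have hH2 : H2 f b := (l4 σ hσK b (e5 σ (2 * f) b hb hdvd (d15' h3))).1 hσ
    exact (g4 (σ ^ 2 ^ e) (pow_mem hσK _) _ (p3 σ b (2 ^ e) hb)).2 (he b ⟨hb.ne, psi_cop hb⟩ hH2)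

end Pool.Agent.DR.PI
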