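import Pool.Agent.Lib.DR.PI.SpecC
import Pool.Agent.Lib.DN.PI.Cop

/-!
# Theorem DR, Part I, module aP: properties of `a n`
-/

set_option autoImplicit false

open scoped Pointwise

noncomputable section

namespace Pool.Agent.DR.PI

open Pool.Agent.MuZ Pool.Agent.DN NumberField IsDedekindDomain
open Pool.Agent.DN.PI (Gd Nm1 NiceI LyI Kn rsys bb AA aG S_RpT S_ExP pri_dvd psi_cop ne_one' d15 d15' d2f)
open Pool.Agent.DI (io ofC io_inj exists_io io_ofC ofC_io VP MP UP TP ex sqr sqr_sq kap)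
open Pool.Agent.DI.PI (Reps HypI Meas tr)

/-- Conjugation by `g` preserves `W`. -/
private theorem aP_conj {G : Type} [Group G] (Z W : Subgroup G)
    (h : ∀ σ ∈ Z, ∀ τ ∈ W, σ * τ * σ⁻¹ ∈ W) (g : G) (hg : g ∈ Z) (x : G) :
    x ∈ W ↔ g * x * g⁻¹ ∈ W := by
  constructor
  · exact h g hg x
  · intro hx
    have h1 := h g⁻¹ (inv_mem hg) _ hx
    have h2 : g⁻¹ * (g * x * g⁻¹) * g⁻¹⁻¹ = x := by group
    rwa [h2] at h1

theorem paP : S_aP := by
  intro hRpT k t _ f m d T hA hW g hg n hn1 σ hσ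
  obtain ⟨hWG, hWW, hWc⟩ := hW n
  have hσg : σ * g⁻¹ ∈ GK k t := mul_mem hσ (inv_mem hg)
  constructor
  · intro τ hτ
    unfold aG
    have h1 : σ * τ * g⁻¹ = σ * g⁻¹ * (g * τ * g⁻¹) := by group
    rw [h1, (hA n hn1 _ hσg).1 _ (hWc g hg τ hτ), (hA n hn1 σ hσ).1 τ hτ]
  · intro R hR
    unfold aG
    rw [Finset.sum_add_distrib, (hA n hn1 σ hσ).2 R hR]
    congr 1
    obtain ⟨R', hR', hs⟩ := (hRpT _ (Ln k t f (n + 2)).fixingSubgroup
      (Ln k t f (n + 1 + 2)).fixingSubgroup hWW).2.2.1 g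
      (aP_conj (GK k t) _ hWc g hg) (aP_conj (GK k t) _ (hW (n + 1)).2.2 g hg) R hR
    have h2 := hs (ZMod 2) (fun r => AA f m d T (n + 1) (σ * g⁻¹ * r))
    rw [(hA n hn1 _ hσg).2 R' hR'] at h2
    rw [h2]
    refine Finset.sum_congr rfl fun r _ => ?_
    have h3 : σ * r * g⁻¹ = σ * g⁻¹ * (g * r * g⁻¹) := by group
    rw [h3]

end Pool.Agent.DR.PI
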