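import Pool.Agent.Lib.DR.PI.Cg
import Pool.Agent.Lib.DR.PI.Ar2
import Pool.Agent.Lib.DR.PI.Ar3
import Pool.Agent.Lib.DR.PI.NiL
import Pool.Agent.Lib.DR.PI.Ps
import Pool.Agent.Lib.DR.PI.GalI
import Pool.Agent.Lib.DR.PI.NoC
import Pool.Agent.Lib.DR.PI.I3
import Pool.Agent.Lib.DR.PI.LyI
import Pool.Agent.Lib.DR.PI.KF1
import Pool.Agent.Lib.DR.PI.Chi
import Pool.Agent.Lib.DR.PI.LM
import Pool.Agent.Lib.DR.PI.BInv
import Pool.Agent.Lib.DR.PI.BNrm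
import Pool.Agent.Lib.DR.PI.AP
import Pool.Agent.Lib.DR.PI.aP
import Pool.Agent.Lib.DR.PI.AThm
import Pool.Agent.Lib.DR.PI.DS
import Pool.Agent.Lib.DR.PI.ANv
import Pool.Agent.Lib.DR.PI.gEx
import Pool.Agent.Lib.DR.PI.HypC
import Pool.Agent.Lib.DR.PI.LK0
import Pool.Agent.Lib.DR.PI.FT
import Pool.Agent.Lib.DR.PI.MN1
import Pool.Agent.Lib.DR.PI.FinD
import Pool.Agent.Lib.DR.PI.L0
import Pool.Agent.Lib.DS.PI.JMain
import Pool.Agent.Lib.DT.PI.Sqr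
import Pool.Agent.Lib.DN.PI.RpT
import Pool.Agent.Lib.DN.PI.ExP
import Pool.Agent.Lib.DN.B.All
import Pool.Agent.Lib.DN.O.All

/-!
# THEOREM DR, Part I (helper55): assembly

`InG`: the statements of the other parts. `S_FW2`: `μ = 0` for the fields contained in cyclotomic fields, `p = 2` (proved
in `DR/PI/FW2.lean` from Theorem DI). `sI_of`: the result for the fields `Lf k t f`; `thmDR_of`: Theorem DR.
-/

set_option autoImplicit false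

open scoped Pointwise

noncomputable section

namespace Pool.Agent.DR.PI

open Pool.Agent.MuZ Pool.Agent.DN
open Pool.Agent.DN.PI (Gd Nm1 NiceI LyI Kn rsys bb AA aG S_RpT S_ExP pri_dvd psi_cop ne_one' d15 d15' d2f)
open Pool.Agent.DI.PI (Reps HypI Meas tr)
open Pool.Agent.DS.PI (RCF HypJ)

/-- `μ = 0` for the number fields contained in cyclotomic fields, `p = 2`. -/
def S_FW2 : Prop :=
  ∀ F : IntermediateField ℚ Om, FiniteDimensional ℚ F → FW.Ab0 F → XFinGen 2 (cyc 2 F)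

/-- The statements of the other parts. -/
structure InG : Prop where
  R1 : DS.S_R1
  E1 : DS.S_E1
  E6 : DS.S_E6
  E7 : DS.S_E7
  E8 : DS.S_E8
  E9 : DS.S_E9
  GR : S_GR
  GM : DS.S_GM
  G3 : DS.S_G3
  H : S_H
  G : S_G

theorem InG.e1 (i : InG) : S_E1 := fun k t _ => i.E1 k t
theorem InG.e6 (i : InG) : S_E6 := fun k t _ => i.E6 k t
theorem InG.e7 (i : InG) : S_E7 := fun k t _ => i.E7 k t
theorem InG.e8 (i : InG) : S_E8 := fun k t _ => i.E8 k t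

/-- The layers. -/
theorem InG.ly (i : InG) (k t : ℕ) [Rmf k t] : ∀ (f : ℕ) (H : Ideal (OO k t) → Prop), Odd f →
    15 ∣ f → NiceI (2 * f) H → (∀ a, H2 f a → H a) → ∀ n : ℕ,
      Layer 2 (FixI (2 * f) H) n (LyI f n H) :=
  pLyI pNoC c_TFix pGalI pNiL pPs pAr2 pI3 pCg pAr3 aO1 aO2 aO6 aO7 aO9 i.e1 i.e6 i.e7 i.e8
    c_Lay k t

/-- `Meas` for one character. -/
theorem meas_of (i : InG) (k t : ℕ) [Rmf k t] (f : ℕ) (hf : Odd f) (h15 : 15 ∣ f) (P : Ideal ZZ)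
    (hP : P.IsPrime) (h2 : (2 : ZZ) ∈ P) (χb : Gal(Om/ℚ) → ZZ ⧸ P)
    (hmul : ∀ σ ∈ GK k t, ∀ τ ∈ GK k t, χb (σ * τ) = χb σ * χb τ)
    (hL : ∀ σ ∈ (Lf k t f).fixingSubgroup, χb σ = 1) (hnt : ∃ σ ∈ GK k t, χb σ ≠ 1)
    (hG : ∀ χ : Ideal (OO k t) → ZZ, IsChi (2 * f) (fun a => (χ a : Om)) →
      (∀ σ ∈ GK k t, ∀ a : Ideal (OO k t), Psi σ⁻¹ (2 * f) a →
        Ideal.Quotient.mk P (χ a) = χb σ) → GO f P (fun a => (χ a : Om))) :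
    ∃ (n0 : ℕ) (a : ℕ → Gal(Om/ℚ) → ZMod 2), Meas 2 (KQ k t) (Lf k t f) P χb n0 a :=
  pHypC pChi pLM pBInv pBNrm DN.PI.pRpT pAP paP pAThm pDS pANv pgEx DI.PI.pRpS DI.PI.pKap
    DI.PI.pTei pCg pAr2 pAr3 pNiL pPs pGalI pKF1 aO1 aO2 aO6 aO7 aO9 i.e1 i.e6 i.e7 i.e8 i.E9
    c_Lay i.GR i.GM i.G3 i.H k t (i.ly k t)
    (DI.PI.pLyU DI.PI.pUnq c_QZ c_Sub c_PL c_Pc c_TFix c_NF c_Lay 2) f hf h15 P hP h2 χb hmul hL
    hnt hG

/-- **The result for the fields `Lf k t f`**, from the statements of the other parts. -/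
theorem sI_of (fw : S_FW2) (i : InG) : S_I := by
  intro k t _ f hf h15
  obtain ⟨⟨P, hAb⟩, hP2⟩ := DN.PI.pExP
  obtain ⟨h2, hN, -⟩ := hP2 P hAb
  have hf2 : 0 < 2 * f := Nat.mul_pos two_pos hf.pos
  obtain ⟨k1, k2, k3, k4, k5⟩ := pLK0 pCg pAr3 pPs pGalI aO1 aO2 aO6 aO7 i.e1 i.e8 k t f hf h15
  obtain ⟨-, -, hN2⟩ := (pAr3 pCg aO1 aO2 aO6 aO7 k t).1 f hf
  have hN0 := h0_nice aO1 aO3 aO6 aO7 hf.pos hN2
  obtain ⟨g1, g2, -, -, -, g6, -, -⟩ := pGalI aO7 i.e1 i.e8 pPs k t (2 * f) _ hf2 (d15' h15) hN0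
  have hX : XFinGen 2 (cyc 2 (L0 k t f)) :=
    fw _ g1 (l0_ab DT.PI.pSqr aO1 aO2 aO3 aO6 aO7 pCg pAr3 pPs pGalI i.e1 i.e6 i.e8 k t f hf h15)
  have hle : L0 k t f ≤ Lf k t f := by
    intro x hx τ hτ a ha hH
    exact hx τ hτ a ha (h2_h0 aO3 aO7 hf.pos hN2 hH)
  have hJ : HypJ 2 (KQ k t) (L0 k t f) (Lf k t f) := by
    refine ⟨P, hN.1, by exact_mod_cast h2, ?_⟩
    intro χb hmul hL hnt
    refine meas_of i k t f hf h15 P hN.1 h2 χb hmul hL ?_ ?_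
    · obtain ⟨σ, hσ, h1⟩ := hnt
      exact ⟨σ, IntermediateField.fixingSubgroup_le g2 hσ, h1⟩
    · intro χ hχ hχb m hmb hmt hm2 hmf
      exact i.G k t f m (fun a => (χ a : Om)) P hf h15 hmb hmt hm2 hmf hχ
        (l0_ncj aO1 aO2 aO3 aO6 aO7 pCg pAr3 pPs pGalI i.e1 i.e7 i.e8 k t f hf h15 P hN.1 χb hL
          hnt χ hχ hχb) hAb
  have : Fact (Nat.Prime 2) := ⟨Nat.prime_two⟩
  exact DS.PI.pJM 2 (KQ k t) (L0 k t f) (Lf k t f) k1 k2 g2 hle k3 g6 k4 k5 hJ hX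

/-- **Theorem DR**, from the statements of the other parts. -/
theorem thmDR_of (fw : S_FW2) (i : InG) : ThmDR := by
  intro k t _ F hF hW
  have : Fact (Nat.Prime 2) := ⟨Nat.prime_two⟩
  exact pFinD DI.PI.pJPe DI.PI.Top_A k t (fun f hf h15 => sI_of fw i k t f hf h15)
    (fun F hF hW => pFT aO1 aO6 aL2 aB1 aB7 i.R1 k t F hF hW)
    (fun f N hf h15 hN => pMN1 pCg pAr3 pPs pGalI aO1 aO2 aO6 aO7 i.e1 i.e8 k t f N hf h15 hN)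
    (DI.PI.pUp res sup fld fwd bwd 2) F hF hW

end Pool.Agent.DR.PI
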