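import Pool.Agent.Lib.DR.PI.Asm

/-!
# THEOREM DR, Part I (helper55): `μ = 0` for the abelian fields, `p = 2`, from Theorem DI

A number field contained in a cyclotomic field is contained in the field of the `M`-torsion of the curve with complex
multiplication by `ℚ(√-7)`, `M = f 2 ^ N`, `f` odd, `7 ∣ f` (Theorem DI, `DI/PI/SpecD.lean`).
-/

set_option autoImplicit false

open scoped Pointwise

noncomputable section

namespace Pool.Agent.DR.PI

open Pool.Agent.MuZ Pool.Agent.DI Pool.Agent.DI.PI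

/-- **`μ = 0` for the abelian fields**, from the result for the fields `Lf f` of Theorem DI. -/
theorem fw2_of (hI : DI.S_I) (B2 : DI.S_B2) (E1 : DI.S_E1) (E6 : DI.S_E6) (E8 : DI.S_E8) :
    S_FW2 := by
  intro F hF hab
  have hfact : Fact (Nat.Prime 2) := ⟨Nat.prime_two⟩
  obtain ⟨m, hm, hab⟩ := hab
  have h0 : 7 * m ≠ 0 := by omega
  obtain ⟨N, f, hf, hfN⟩ := Nat.exists_eq_two_pow_mul_odd h0
  have h7 : 7 ∣ f := by
    have h1 : 7 ∣ 2 ^ N * f := ⟨m, hfN.symm⟩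
    exact (Nat.Coprime.pow_right N (by norm_num : Nat.Coprime 7 2)).dvd_of_dvd_mul_left h1
  have hM : f * 2 ^ N = 7 * m := by rw [mul_comm, ← hfN]
  have hMpos : 0 < f * 2 ^ N := by omega
  obtain ⟨-, h2, h3, -⟩ := DI.PI.pAr3 DI.PI.pAr1 f hf
  obtain ⟨m1, m2, m3, m4, m5⟩ := DI.PI.pMN1 B2 E1 E8 f N hf h7 (h2 N) ⟨h3.neg, h3.cop, h3.per, h3.mul⟩
  have hKM : DI.KQ ≤ MN (f * 2 ^ N) := le_sup_left
  have hle : F ≤ MN (f * 2 ^ N) := by
    intro x hx
    rw [← InfiniteGalois.fixedField_fixingSubgroup (MN (f * 2 ^ N)),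
      IntermediateField.mem_fixedField_iff]
    intro τ hτ
    have hτK : τ ∈ DI.GK := IntermediateField.fixingSubgroup_le hKM hτ
    have hτ' := (mem_fix _ τ).1 hτ
    have hmem : ∀ v : DI.OO, DI.xO (DI.toC v / (f * 2 ^ N : ℕ)) ∈ MN (f * 2 ^ N) ∧
        DI.yO (DI.toC v / (f * 2 ^ N : ℕ)) ∈ MN (f * 2 ^ N) := by
      intro v
      have h5 : IntermediateField.adjoin ℚ {a : Om | ∃ v : DI.OO, a = DI.xO (DI.toC v / (f * 2 ^ N : ℕ)) ∨
          a = DI.yO (DI.toC v / (f * 2 ^ N : ℕ))} ≤ MN (f * 2 ^ N) := le_sup_right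
      exact ⟨h5 (IntermediateField.subset_adjoin _ _ ⟨v, Or.inl rfl⟩),
        h5 (IntermediateField.subset_adjoin _ _ ⟨v, Or.inr rfl⟩)⟩
    have hN1 : DI.Nm (1 : DI.OO) = 1 := by
      change (1 : ℤ) ^ 2 + 1 * 0 + 2 * 0 ^ 2 = 1
      norm_num
    have hPsi : DI.Psi τ (f * 2 ^ N) 1 := by
      refine ⟨?_, fun v => ?_⟩
      · unfold DI.Cop
        rw [hN1]
        exact isCoprime_one_left
      · rw [one_mul]
        exact ⟨hτ' _ (hmem v).1, hτ' _ (hmem v).2⟩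
    have hτF : τ ∈ F.fixingSubgroup := by
      refine hab τ fun z hz => ?_
      have h6 := E6 τ hτK (f * 2 ^ N) 1 hMpos hPsi z (by
        rw [hM, mul_comm, pow_mul, hz, one_pow])
      rw [hN1] at h6
      simpa using h6
    exact (mem_fix F τ).1 hτF x hx
  refine DI.PI.pUp res sup fld fwd bwd 2 F (MN (f * 2 ^ N)) m1 hle ?_
  exact (DI.PI.pJPe DI.PI.Top_A 2 DI.KQ (DI.Lf f) (MN (f * 2 ^ N)) m1 m3 m4 m2 m5).2 (hI f hf h7)

end Pool.Agent.DR.PI
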