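import Pool.Agent.Lib.DR.PI.SpecC
import Pool.Agent.Lib.DS.PI.RCF

/-!
# THEOREM DR, Part I (helper55), chapter D: the ray class fields and the field `Wf`

Same conventions as in `SpecC.lean`.
-/

set_option autoImplicit false

open scoped Pointwise nonZeroDivisors

noncomputable section

namespace Pool.Agent.DR.PI

open Pool.Agent.MuZ Pool.Agent.DN NumberField IsDedekindDomain
open Pool.Agent.DN.PI (Gd Nm1 NiceI LyI Kn)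
open Pool.Agent.DS.PI (RCF)

/-- (80 lines) **The field `RCF`.** -/
def S_MN1 : Prop :=
  S_Cg → S_Ar3 → S_Ps → S_GalI → S_O1 → S_O2 → S_O6 → S_O7 → S_E1 → S_E8 →
  ∀ (k t : ℕ) [Rmf k t] (f N : ℕ), Odd f → 15 ∣ f → 1 ≤ N →
    FiniteDimensional ℚ (RCF k t (f * 2 ^ N)) ∧
    (∀ σ ∈ (KQ k t).fixingSubgroup, ∀ x ∈ RCF k t (f * 2 ^ N), σ x ∈ RCF k t (f * 2 ^ N)) ∧
    KQ k t ≤ Lf k t f ∧ Lf k t f ≤ RCF k t (f * 2 ^ N) ∧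
    ∃ a : ℕ, ∀ σ ∈ (Lf k t f).fixingSubgroup, σ ^ 2 ^ a ∈ (RCF k t (f * 2 ^ N)).fixingSubgroup

/-- (60 lines) **Assembly of the last descent** for one field `K`. -/
def S_FinD : Prop :=
  DI.PI.S_JPe → ThmA → ∀ (k t : ℕ) [Rmf k t],
  (∀ f : ℕ, Odd f → 15 ∣ f → XFinGen 2 (cyc 2 (Lf k t f))) →
  (∀ F : IntermediateField ℚ Om, FiniteDimensional ℚ F → F ≤ Wf k t →
    ∃ f N : ℕ, Odd f ∧ 15 ∣ f ∧ 1 ≤ N ∧ F ≤ RCF k t (f * 2 ^ N)) →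
  (∀ f N : ℕ, Odd f → 15 ∣ f → 1 ≤ N →
    FiniteDimensional ℚ (RCF k t (f * 2 ^ N)) ∧
    (∀ σ ∈ (KQ k t).fixingSubgroup, ∀ x ∈ RCF k t (f * 2 ^ N), σ x ∈ RCF k t (f * 2 ^ N)) ∧
    KQ k t ≤ Lf k t f ∧ Lf k t f ≤ RCF k t (f * 2 ^ N) ∧
    ∃ a : ℕ, ∀ σ ∈ (Lf k t f).fixingSubgroup, σ ^ 2 ^ a ∈ (RCF k t (f * 2 ^ N)).fixingSubgroup) →
  (∀ (F L : IntermediateField ℚ Om), FiniteDimensional ℚ L → F ≤ L → XFinGen 2 (cyc 2 L) →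
    XFinGen 2 (cyc 2 F)) →
  ∀ F : IntermediateField ℚ Om, FiniteDimensional ℚ F → F ≤ Wf k t → XFinGen 2 (cyc 2 F)

end Pool.Agent.DR.PI
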